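import Mathlib
import Pool.Agent.H803R3.Reg

/-!
Koszul homology of quotients by monomial ideals: vanishing above a given degree, and how it
behaves for `I : x` and `I + (x)`.
-/

set_option autoImplicit false
set_option linter.unusedSectionVars false

namespace Pool.Agent.K4H12

open MvPolynomial Pool.Agent.H803R3

variable {K : Type*} [Field K] {n : ℕ}

/-- all monomials of `p` satisfy `P` -/
def InP (P : (Fin n →₀ ℕ) → Prop) (p : MvPolynomial (Fin n) K) : Prop := ∀ m ∈ p.support, P m

/-- Upward closed predicates. -/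
def Up (P : (Fin n →₀ ℕ) → Prop) : Prop := ∀ m m' : Fin n →₀ ℕ, m ≤ m' → P m → P m'

lemma InP.zero (P : (Fin n →₀ ℕ) → Prop) : InP P (0 : MvPolynomial (Fin n) K) := by
  intro m hm; simp at hm

lemma InP.add {P : (Fin n →₀ ℕ) → Prop} {p q : MvPolynomial (Fin n) K} (hp : InP P p)
    (hq : InP P q) : InP P (p + q) := by
  classical
  intro m hm
  rcases Finset.mem_union.1 (MvPolynomial.support_add hm) with h | h
  · exact hp m h
  · exact hq m h

lemma InP.neg {P : (Fin n →₀ ℕ) → Prop} {p : MvPolynomial (Fin n) K} (hp : InP P p) :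
    InP P (-p) := by
  intro m hm
  rw [mem_support_iff, coeff_neg, neg_ne_zero, ← mem_support_iff] at hm
  exact hp m hm

lemma InP.sub {P : (Fin n →₀ ℕ) → Prop} {p q : MvPolynomial (Fin n) K} (hp : InP P p)
    (hq : InP P q) : InP P (p - q) := by
  rw [sub_eq_add_neg]; exact hp.add hq.neg

lemma InP.sum {P : (Fin n →₀ ℕ) → Prop} {ι : Type*} (s : Finset ι)
    (f : ι → MvPolynomial (Fin n) K) (h : ∀ i ∈ s, InP P (f i)) : InP P (∑ i ∈ s, f i) := by
  classical
  induction s using Finset.induction_on with
  | empty => simpa using InP.zero P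
  | insert a s ha ih =>
    rw [Finset.sum_insert ha]
    exact (h a (Finset.mem_insert_self _ _)).add
      (ih fun i hi => h i (Finset.mem_insert_of_mem hi))

lemma InP.mul_left {P : (Fin n →₀ ℕ) → Prop} (hP : Up P) {p : MvPolynomial (Fin n) K}
    (q : MvPolynomial (Fin n) K) (hp : InP P p) : InP P (q * p) := by
  classical
  intro m hm
  obtain ⟨a, ha, b, hb, rfl⟩ := Finset.mem_add.1 (MvPolynomial.support_mul q p hm)
  exact hP b _ le_add_self (hp b hb)

lemma InP.koszulD {P : (Fin n →₀ ℕ) → Prop} (hP : Up P)
    {f : Finset (Fin n) → MvPolynomial (Fin n) K} (hf : ∀ T, InP P (f T)) (S : Finset (Fin n)) :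
    InP P (koszulD f S) := by
  unfold H803R3.koszulD
  exact InP.sum _ _ fun t _ => (hf _).mul_left hP _

/-- vanishing of the Koszul homology of `S/I`, `I` the monomial ideal given by `P`, in all
internal degrees `i + d` with `d > r` -/
def Vanish (K : Type*) [Field K] {n : ℕ} (P : (Fin n →₀ ℕ) → Prop) (r : ℕ) : Prop :=
  ∀ i d : ℕ, r < d → ∀ f : Finset (Fin n) → MvPolynomial (Fin n) K,
    (∀ T : Finset (Fin n), T.card ≠ i → f T = 0) →
    (∀ T : Finset (Fin n), (f T).IsHomogeneous d) →
    (∀ S : Finset (Fin n), InP P (koszulD f S)) →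
    ∃ g : Finset (Fin n) → MvPolynomial (Fin n) K,
      (∀ U : Finset (Fin n), U.card ≠ i + 1 → g U = 0) ∧
      ∀ T : Finset (Fin n), InP P (f T - koszulD g T)

lemma Vanish.mono {P : (Fin n →₀ ℕ) → Prop} {r r' : ℕ} (h : Vanish K P r) (hr : r ≤ r') :
    Vanish K P r' := fun i d hd => h i d (lt_of_le_of_lt hr hd)

lemma koszulD_add (f g : Finset (Fin n) → MvPolynomial (Fin n) K) (S : Finset (Fin n)) :
    koszulD (fun T => f T + g T) S = koszulD f S + koszulD g S := by
  unfold koszulD
  rw [← Finset.sum_add_distrib]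
  exact Finset.sum_congr rfl fun t _ => by ring

lemma koszulD_sub (f g : Finset (Fin n) → MvPolynomial (Fin n) K) (S : Finset (Fin n)) :
    koszulD (fun T => f T - g T) S = koszulD f S - koszulD g S := by
  unfold koszulD
  rw [← Finset.sum_sub_distrib]
  exact Finset.sum_congr rfl fun t _ => by ring

lemma koszulD_mul (p : MvPolynomial (Fin n) K) (f : Finset (Fin n) → MvPolynomial (Fin n) K)
    (S : Finset (Fin n)) : koszulD (fun T => p * f T) S = p * koszulD f S := by
  unfold koszulD
  rw [Finset.mul_sum]
  exact Finset.sum_congr rfl fun t _ => by ring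

lemma koszulD_zero_of_card {i : ℕ} {f : Finset (Fin n) → MvPolynomial (Fin n) K}
    (hf : ∀ U : Finset (Fin n), U.card ≠ i + 1 → f U = 0) (T : Finset (Fin n)) (hT : T.card ≠ i) :
    koszulD f T = 0 := by
  unfold koszulD
  refine Finset.sum_eq_zero fun t ht => ?_
  rw [Finset.mem_sdiff] at ht
  rw [hf, mul_zero]
  rw [Finset.card_insert_of_notMem ht.2]
  omega

/-- homogeneous component of `X t * p` -/
lemma hc_X_mul (d : ℕ) (t : Fin n) (p : MvPolynomial (Fin n) K) :
    homogeneousComponent (d + 1) (X t * p) = X t * homogeneousComponent d p := by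
  ext m
  rw [coeff_homogeneousComponent, coeff_X_mul', coeff_X_mul', coeff_homogeneousComponent]
  by_cases ht : t ∈ m.support
  · simp only [if_pos ht]
    have h1 : m = (m - Finsupp.single t 1) + Finsupp.single t 1 := by
      rw [tsub_add_cancel_of_le]
      rw [Finsupp.single_le_iff]
      exact Nat.one_le_iff_ne_zero.2 (Finsupp.mem_support_iff.1 ht)
    have h2 : m.degree = (m - Finsupp.single t 1).degree + 1 := by
      conv_lhs => rw [h1]
      rw [map_add, Finsupp.degree_single]
    rw [h2]
    simp
  · simp only [if_neg ht]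
    simp

lemma hc_sign (d k : ℕ) (p : MvPolynomial (Fin n) K) :
    homogeneousComponent d ((-1 : MvPolynomial (Fin n) K) ^ k * p) =
      (-1 : MvPolynomial (Fin n) K) ^ k * homogeneousComponent d p := by
  have : (-1 : MvPolynomial (Fin n) K) ^ k = C ((-1 : K) ^ k) := by simp
  rw [this, homogeneousComponent_C_mul]

lemma hc_koszulD (d : ℕ) (g : Finset (Fin n) → MvPolynomial (Fin n) K) (S : Finset (Fin n)) :
    homogeneousComponent (d + 1) (koszulD g S) =
      koszulD (fun T => homogeneousComponent d (g T)) S := by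
  unfold koszulD
  rw [map_sum]
  refine Finset.sum_congr rfl fun t _ => ?_
  rw [mul_assoc, hc_sign, hc_X_mul, mul_assoc]

lemma InP.hc {P : (Fin n →₀ ℕ) → Prop} {p : MvPolynomial (Fin n) K} (hp : InP P p) (d : ℕ) :
    InP P (homogeneousComponent d p) := by
  intro m hm
  rw [mem_support_iff, coeff_homogeneousComponent] at hm
  apply hp m
  rw [mem_support_iff]
  intro h
  apply hm
  rw [h]; simp

/-- colon by a variable -/
def colonP (P : (Fin n →₀ ℕ) → Prop) (v : Fin n) : (Fin n →₀ ℕ) → Prop :=
  fun m => P (m + Finsupp.single v 1)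

/-- adding a variable -/
def addP (P : (Fin n →₀ ℕ) → Prop) (v : Fin n) : (Fin n →₀ ℕ) → Prop :=
  fun m => P m ∨ v ∈ m.support

lemma InP.colon {P : (Fin n →₀ ℕ) → Prop} {v : Fin n} {p : MvPolynomial (Fin n) K}
    (h : InP P (X v * p)) : InP (colonP P v) p := by
  intro m hm
  apply h
  rw [mem_support_iff, mul_comm, coeff_mul_X]
  exact mem_support_iff.1 hm

lemma InP.of_colon {P : (Fin n →₀ ℕ) → Prop} {v : Fin n} {p : MvPolynomial (Fin n) K}
    (h : InP (colonP P v) p) : InP P (X v * p) := by
  intro m hm
  rw [mem_support_iff, coeff_X_mul'] at hm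
  have hv : v ∈ m.support := by
    by_contra hc
    rw [if_neg hc] at hm
    exact hm rfl
  rw [if_pos hv] at hm
  have h1 := h _ (mem_support_iff.2 hm)
  unfold colonP at h1
  rwa [tsub_add_cancel_of_le] at h1
  rw [Finsupp.single_le_iff]
  exact Nat.one_le_iff_ne_zero.2 (Finsupp.mem_support_iff.1 hv)

/-- The decomposition used twice below. -/
lemma split_cycle {P : (Fin n →₀ ℕ) → Prop} (hP : Up P) {v : Fin n} {r : ℕ}
    (hV : Vanish K (addP P v) r) {i d : ℕ} (hd : r < d + 1)
    {f : Finset (Fin n) → MvPolynomial (Fin n) K}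
    (hf0 : ∀ T : Finset (Fin n), T.card ≠ i → f T = 0)
    (hfh : ∀ T : Finset (Fin n), (f T).IsHomogeneous (d + 1))
    (hfc : ∀ S : Finset (Fin n), InP P (koszulD f S)) :
    ∃ g h : Finset (Fin n) → MvPolynomial (Fin n) K,
      (∀ U : Finset (Fin n), U.card ≠ i + 1 → g U = 0) ∧
      (∀ T : Finset (Fin n), T.card ≠ i → h T = 0) ∧
      (∀ T : Finset (Fin n), (h T).IsHomogeneous d) ∧
      (∀ T : Finset (Fin n), InP P (f T - koszulD g T - X v * h T)) ∧
      (∀ S : Finset (Fin n), InP (colonP P v) (koszulD h S)) := by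
  classical
  obtain ⟨g0, hg0, hfg0⟩ := hV i (d + 1) hd f hf0 hfh (fun S m hm => Or.inl (hfc S m hm))
  set g : Finset (Fin n) → MvPolynomial (Fin n) K := fun T => homogeneousComponent d (g0 T)
    with hg
  have hgsup : ∀ U : Finset (Fin n), U.card ≠ i + 1 → g U = 0 := by
    intro U hU
    rw [hg]; simp only
    rw [hg0 U hU, map_zero]
  set q : Finset (Fin n) → MvPolynomial (Fin n) K := fun T => f T - koszulD g T with hq
  have hqhc : ∀ T, q T = homogeneousComponent (d + 1) (f T - koszulD g0 T) := by
    intro T
    rw [map_sub, hc_koszulD, homogeneousComponent_of_mem (hfh T), if_pos rfl]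
  have hqP : ∀ T, InP (addP P v) (q T) := by
    intro T
    rw [hqhc]
    exact (hfg0 T).hc _
  have hqh : ∀ T, (q T).IsHomogeneous (d + 1) := by
    intro T
    rw [hqhc]
    exact homogeneousComponent_isHomogeneous _ _
  have hq0 : ∀ T : Finset (Fin n), T.card ≠ i → q T = 0 := by
    intro T hT
    rw [hq]; simp only
    rw [hf0 T hT, koszulD_zero_of_card hgsup T hT, sub_zero]
  set h : Finset (Fin n) → MvPolynomial (Fin n) K :=
    fun T => divMonomial (q T) (Finsupp.single v 1) with hh
  set u : Finset (Fin n) → MvPolynomial (Fin n) K :=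
    fun T => modMonomial (q T) (Finsupp.single v 1) with hu
  have hdecomp : ∀ T, X v * h T + u T = q T := fun T =>
    divMonomial_add_modMonomial_single (q T) v
  have huP : ∀ T, InP P (u T) := by
    intro T m hm
    rw [mem_support_iff] at hm
    by_cases hle : Finsupp.single v 1 ≤ m
    · exact absurd (coeff_modMonomial_of_le _ hle) hm
    · have h1 : coeff m (u T) = coeff m (q T) := coeff_modMonomial_of_not_le _ hle
      rw [h1, ← mem_support_iff] at hm
      rcases hqP T m hm with h2 | h2
      · exact h2
      · exfalso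
        apply hle
        rw [Finsupp.single_le_iff]
        exact Nat.one_le_iff_ne_zero.2 (Finsupp.mem_support_iff.1 h2)
  refine ⟨g, h, hgsup, ?_, ?_, ?_, ?_⟩
  · intro T hT
    rw [hh]; simp only
    rw [hq0 T hT]
    ext m
    rw [coeff_divMonomial]
    simp
  · intro T m hm
    have h1 : coeff (Finsupp.single v 1 + m) (q T) ≠ 0 := by
      rw [← coeff_divMonomial]
      exact hm
    have h2 := hqh T h1
    rw [map_add, Finsupp.weight_single] at h2
    simp only [Pi.one_apply, smul_eq_mul, mul_one] at h2
    omega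
  · intro T
    have : f T - koszulD g T - X v * h T = u T := by
      have := hdecomp T
      rw [hq] at this
      simp only at this
      rw [← this]; ring
    rw [this]
    exact huP T
  · intro S
    apply InP.colon
    rw [← koszulD_mul]
    have e : (fun T => X v * h T) = fun T => (f T - koszulD g T) - u T := by
      funext T
      have := hdecomp T
      rw [hq] at this
      simp only at this
      rw [← this]; ring
    rw [e, koszulD_sub, koszulD_sub, koszulD_koszulD, sub_zero]
    exact (hfc S).sub (InP.koszulD hP huP S)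

/-- Lemma A. -/
lemma Vanish.of_colon_add {P : (Fin n →₀ ℕ) → Prop} (hP : Up P) {v : Fin n} {r : ℕ}
    (h1 : Vanish K (colonP P v) r) (h2 : Vanish K (addP P v) (r + 1)) :
    Vanish K P (r + 1) := by
  intro i d hd f hf0 hfh hfc
  obtain ⟨d, rfl⟩ : ∃ e, d = e + 1 := ⟨d - 1, by omega⟩
  obtain ⟨g, h, hg0, hh0, hhh, hfgh, hhc⟩ := split_cycle hP h2 hd hf0 hfh hfc
  obtain ⟨g', hg'0, hhg'⟩ := h1 i d (by omega) h hh0 hhh hhc
  refine ⟨fun T => g T + X v * g' T, ?_, ?_⟩
  · intro U hU
    simp only [hg0 U hU, hg'0 U hU, mul_zero, add_zero]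
  · intro T
    rw [koszulD_add, koszulD_mul]
    have : f T - (koszulD g T + X v * koszulD g' T) =
        (f T - koszulD g T - X v * h T) + X v * (h T - koszulD g' T) := by ring
    rw [this]
    exact (hfgh T).add (InP.of_colon (hhg' T))

/-- the homotopy -/
noncomputable def wedge (v : Fin n) (h : Finset (Fin n) → MvPolynomial (Fin n) K)
    (T : Finset (Fin n)) : MvPolynomial (Fin n) K :=
  if v ∈ T then (-1 : MvPolynomial (Fin n) K) ^ (T.filter (· < v)).card * h (T.erase v) else 0

lemma koszulD_wedge (v : Fin n) (h : Finset (Fin n) → MvPolynomial (Fin n) K)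
    (S : Finset (Fin n)) : koszulD (wedge v h) S + wedge v (koszulD h) S = X v * h S := by
  classical
  by_cases hv : v ∈ S
  · have h1 : wedge v (koszulD h) S = (-1 : MvPolynomial (Fin n) K) ^ (S.filter (· < v)).card *
        koszulD h (S.erase v) := by
      unfold wedge; rw [if_pos hv]
    rw [h1]
    have h2 : Finset.univ \ (S.erase v) = insert v (Finset.univ \ S) := by
      ext t
      simp only [Finset.mem_sdiff, Finset.mem_univ, true_and, Finset.mem_erase,
        Finset.mem_insert, not_and]
      constructor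
      · intro h
        by_cases htv : t = v
        · exact Or.inl htv
        · exact Or.inr (h htv)
      · rintro (rfl | h)
        · intro h'; exact absurd rfl h'
        · intro _; exact h
    have h3 : koszulD h (S.erase v) =
        (-1 : MvPolynomial (Fin n) K) ^ ((S.erase v).filter (· < v)).card * X v * h S +
        ∑ t ∈ Finset.univ \ S, (-1 : MvPolynomial (Fin n) K) ^ ((S.erase v).filter (· < t)).card *
          X t * h (insert t (S.erase v)) := by
      unfold koszulD
      rw [h2, Finset.sum_insert (by simp [hv]), Finset.insert_erase hv]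
    have h4 : ((S.erase v).filter (· < v)).card = (S.filter (· < v)).card := by
      congr 1
      ext t
      simp only [Finset.mem_filter, Finset.mem_erase]
      constructor
      · rintro ⟨⟨_, h⟩, h'⟩; exact ⟨h, h'⟩
      · rintro ⟨h, h'⟩; exact ⟨⟨ne_of_lt h', h⟩, h'⟩
    rw [h3, h4, mul_add, ← add_assoc, add_comm (koszulD (wedge v h) S), add_assoc]
    have h5 : (-1 : MvPolynomial (Fin n) K) ^ (S.filter (· < v)).card *
        ((-1 : MvPolynomial (Fin n) K) ^ (S.filter (· < v)).card * X v * h S) = X v * h S := by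
      rw [← mul_assoc, ← mul_assoc, ← pow_add, ← two_mul, pow_mul]
      simp
    rw [h5]
    rw [add_eq_left]
    unfold koszulD
    rw [Finset.mul_sum, ← Finset.sum_add_distrib]
    refine Finset.sum_eq_zero fun t ht => ?_
    rw [Finset.mem_sdiff] at ht
    have htS := ht.2
    have htv : t ≠ v := fun h => htS (h ▸ hv)
    have h6 : wedge v h (insert t S) =
        (-1 : MvPolynomial (Fin n) K) ^ ((insert t S).filter (· < v)).card *
          h (insert t (S.erase v)) := by
      unfold wedge
      rw [if_pos (Finset.mem_insert_of_mem hv), Finset.erase_insert_of_ne htv]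
    rw [h6]
    rcases lt_or_gt_of_ne htv with hlt | hgt
    · -- t < v
      have e1 : ((insert t S).filter (· < v)).card = (S.filter (· < v)).card + 1 := by
        rw [Finset.filter_insert, if_pos hlt, Finset.card_insert_of_notMem]
        simp [htS]
      have e2 : ((S.erase v).filter (· < t)).card = (S.filter (· < t)).card := by
        congr 1
        ext s
        simp only [Finset.mem_filter, Finset.mem_erase]
        constructor
        · rintro ⟨⟨_, h⟩, h'⟩; exact ⟨h, h'⟩
        · rintro ⟨h, h'⟩; exact ⟨⟨ne_of_lt (h'.trans hlt), h⟩, h'⟩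
      rw [e1, e2, pow_succ]
      ring
    · have e1 : ((insert t S).filter (· < v)).card = (S.filter (· < v)).card := by
        rw [Finset.filter_insert, if_neg (not_lt.2 hgt.le)]
      have e2 : (S.filter (· < t)).card = ((S.erase v).filter (· < t)).card + 1 := by
        have : S.filter (· < t) = insert v ((S.erase v).filter (· < t)) := by
          ext s
          simp only [Finset.mem_filter, Finset.mem_insert, Finset.mem_erase]
          constructor
          · rintro ⟨h, h'⟩
            by_cases hs : s = v
            · exact Or.inl hs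
            · exact Or.inr ⟨⟨hs, h⟩, h'⟩
          · rintro (rfl | ⟨⟨_, h⟩, h'⟩)
            · exact ⟨hv, hgt⟩
            · exact ⟨h, h'⟩
        rw [this, Finset.card_insert_of_notMem (by simp)]
      rw [e1, e2, pow_succ]
      ring
  · have h1 : wedge v (koszulD h) S = 0 := by
      unfold wedge; rw [if_neg hv]
    rw [h1, add_zero]
    unfold koszulD
    rw [Finset.sum_eq_single v]
    · unfold wedge
      rw [if_pos (Finset.mem_insert_self _ _), Finset.erase_insert hv]
      have e : ((insert v S).filter (· < v)).card = (S.filter (· < v)).card := by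
        rw [Finset.filter_insert, if_neg (lt_irrefl v)]
      rw [e]
      have : (-1 : MvPolynomial (Fin n) K) ^ (S.filter (· < v)).card * X v *
        ((-1 : MvPolynomial (Fin n) K) ^ (S.filter (· < v)).card * h S) =
          ((-1 : MvPolynomial (Fin n) K) ^ (S.filter (· < v)).card *
            (-1 : MvPolynomial (Fin n) K) ^ (S.filter (· < v)).card) * (X v * h S) := by ring
      rw [this, ← pow_add, ← two_mul, pow_mul]
      simp
    · intro t ht htv
      unfold wedge
      rw [if_neg, mul_zero]
      simp [hv, Ne.symm htv]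
    · intro h'
      exact absurd (by simp [hv]) h'

/-- Lemma B. -/
lemma Vanish.of_free {P : (Fin n →₀ ℕ) → Prop} (hP : Up P) {v : Fin n} {r : ℕ}
    (hfree : ∀ m, colonP P v m → P m) (h2 : Vanish K (addP P v) r) :
    Vanish K P r := by
  classical
  intro i d hd f hf0 hfh hfc
  obtain ⟨d, rfl⟩ : ∃ e, d = e + 1 := ⟨d - 1, by omega⟩
  obtain ⟨g, h, hg0, hh0, hhh, hfgh, hhc⟩ := split_cycle hP h2 hd hf0 hfh hfc
  have hhP : ∀ S, InP P (koszulD h S) := fun S m hm => hfree m (hhc S m hm)
  refine ⟨fun T => g T + wedge v h T, ?_, ?_⟩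
  · intro U hU
    simp only [hg0 U hU, zero_add]
    unfold wedge
    split_ifs with hv
    · rw [hh0, mul_zero]
      rw [Finset.card_erase_of_mem hv]
      have : 0 < U.card := Finset.card_pos.2 ⟨v, hv⟩
      omega
    · rfl
  · intro T
    rw [koszulD_add]
    have h1 := koszulD_wedge v h T
    have : f T - (koszulD g T + koszulD (wedge v h) T) =
        (f T - koszulD g T - X v * h T) + wedge v (koszulD h) T := by
      rw [← h1]; ring
    rw [this]
    refine (hfgh T).add ?_
    unfold wedge
    split_ifs
    · exact (hhP _).mul_left hP _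
    · exact InP.zero _

/-- The zero module. -/
lemma Vanish.of_all {P : (Fin n →₀ ℕ) → Prop} (h : ∀ m, P m) (r : ℕ) : Vanish K P r := by
  intro i d _ f _ _ _
  exact ⟨fun _ => 0, fun _ _ => rfl, fun T m _ => h m⟩

/-- Lemma C. -/
lemma Vanish.of_max {P : (Fin n →₀ ℕ) → Prop} (h : ∀ m, m ≠ 0 → P m) : Vanish K P 0 := by
  intro i d hd f _ hfh _
  refine ⟨fun _ => 0, fun _ _ => rfl, fun T m hm => h m ?_⟩
  rintro rfl
  have e : koszulD (fun _ => (0 : MvPolynomial (Fin n) K)) T = 0 := by
    unfold koszulD; simp
  rw [e, sub_zero, mem_support_iff] at hm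
  have := hfh T hm
  simp at this
  omega

end Pool.Agent.K4H12
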