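import Mathlib
import Pool.Agent.K4H12.Reg

/-!
The monomial ideals met when variables of the degree-vector neighborhood ideal are set to `0`
or `1`, and the induction over them.
-/

set_option autoImplicit false
set_option linter.unusedSectionVars false

namespace Pool.Agent.K4H12

open MvPolynomial Pool.Agent.H803R3

open Classical in
/-- The closed neighborhood of a vertex. -/
noncomputable def cnb {n : ℕ} (G : SimpleGraph (Fin n)) (i : Fin n) : Finset (Fin n) :=
  Finset.univ.filter fun j => j = i ∨ G.Adj i j

variable {n : ℕ} (G : SimpleGraph (Fin n))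

/-- The monomials in the ideal of the state `(A, E)`: the variables in `A` were set to `1` and
those in `E` to `0`. -/
def Bad (A E : Finset (Fin n)) (m : Fin n →₀ ℕ) : Prop :=
  (∃ j ∈ E, j ∈ m.support) ∨ ∃ i, (cnb G i \ (A ∪ m.support)).card ≤ 1

/-- The state ideal is proper. -/
def NonVoid (A : Finset (Fin n)) : Prop := ∀ i, 2 ≤ (cnb G i \ A).card

variable {G}

lemma mem_cnb {i j : Fin n} : j ∈ cnb G i ↔ j = i ∨ G.Adj i j := by
  unfold cnb; simp

lemma Bad.up (A E : Finset (Fin n)) : Up (Bad G A E) := by
  intro m m' hle h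
  have hs : m.support ⊆ m'.support := by
    intro x hx
    rw [Finsupp.mem_support_iff] at hx ⊢
    have := hle x
    omega
  rcases h with ⟨j, hj, hjm⟩ | ⟨i, hi⟩
  · exact Or.inl ⟨j, hj, hs hjm⟩
  · refine Or.inr ⟨i, le_trans (Finset.card_le_card ?_) hi⟩
    exact Finset.sdiff_subset_sdiff (Finset.Subset.refl _) (Finset.union_subset_union_right hs)

lemma supp_add (m : Fin n →₀ ℕ) (v : Fin n) :
    (m + Finsupp.single v 1).support = insert v m.support := by
  ext x
  simp only [Finsupp.mem_support_iff, Finsupp.add_apply, Finset.mem_insert]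
  by_cases h : x = v
  · subst h; simp
  · rw [Finsupp.single_eq_of_ne h]
    simp [h]

lemma colon_bad {A E : Finset (Fin n)} {v : Fin n} (hv : v ∉ E) :
    colonP (Bad G A E) v = Bad G (insert v A) E := by
  funext m
  unfold colonP Bad
  rw [supp_add]
  apply propext
  have e : ∀ i, cnb G i \ (A ∪ insert v m.support) = cnb G i \ (insert v A ∪ m.support) := by
    intro i
    congr 1
    ext x
    simp only [Finset.mem_union, Finset.mem_insert]
    tauto
  simp only [e]
  constructor
  · rintro (⟨j, hj, hjm⟩ | h)
    · rcases Finset.mem_insert.1 hjm with rfl | hjm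
      · exact absurd hj hv
      · exact Or.inl ⟨j, hj, hjm⟩
    · exact Or.inr h
  · rintro (⟨j, hj, hjm⟩ | h)
    · exact Or.inl ⟨j, hj, Finset.mem_insert_of_mem hjm⟩
    · exact Or.inr h

lemma add_bad {A E : Finset (Fin n)} {v : Fin n} :
    addP (Bad G A E) v = Bad G A (insert v E) := by
  funext m
  unfold addP Bad
  apply propext
  constructor
  · rintro ((⟨j, hj, hjm⟩ | h) | h)
    · exact Or.inl ⟨j, Finset.mem_insert_of_mem hj, hjm⟩
    · exact Or.inr h
    · exact Or.inl ⟨v, Finset.mem_insert_self _ _, h⟩
  · rintro (⟨j, hj, hjm⟩ | h)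
    · rcases Finset.mem_insert.1 hj with rfl | hj
      · exact Or.inr hjm
      · exact Or.inl (Or.inl ⟨j, hj, hjm⟩)
    · exact Or.inl (Or.inr h)

variable (K : Type*) [Field K]

/-- If setting `v` to `1` makes the ideal improper, set it to `0` at no cost. -/
lemma vanish_void {A E : Finset (Fin n)} {v : Fin n} {r : ℕ}
    (hv : ¬ NonVoid G (insert v A)) (h : Vanish K (Bad G A (insert v E)) r) :
    Vanish K (Bad G A E) r := by
  have e : Bad G A (insert v E) = Bad G A E := by
    rw [← add_bad]
    funext m
    unfold addP
    apply propext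
    refine ⟨fun h => ?_, Or.inl⟩
    rcases h with h | h
    · exact h
    · right
      unfold NonVoid at hv
      push Not at hv
      obtain ⟨i, hi⟩ := hv
      refine ⟨i, ?_⟩
      have : (cnb G i \ (A ∪ m.support)).card ≤ (cnb G i \ (insert v A)).card := by
        apply Finset.card_le_card
        intro x hx
        simp only [Finset.mem_sdiff, Finset.mem_union, Finset.mem_insert, not_or] at hx ⊢
        refine ⟨hx.1, ?_, hx.2.1⟩
        rintro rfl
        exact hx.2.2 h
      omega
  rw [← e]; exact h

/-- Variables in `A` are nonzerodivisors. -/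
lemma vanish_mem {A E : Finset (Fin n)} {v : Fin n} {r : ℕ} (hvE : v ∉ E) (hvA : v ∈ A)
    (h : Vanish K (Bad G A (insert v E)) r) : Vanish K (Bad G A E) r := by
  refine Vanish.of_free (Bad.up A E) (v := v) ?_ (by rw [add_bad]; exact h)
  intro m hm
  rw [colon_bad hvE, Finset.insert_eq_self.2 hvA] at hm
  exact hm

/-- Free variables. -/
lemma vanish_free {A E : Finset (Fin n)} {v : Fin n} {r : ℕ} (hvE : v ∉ E)
    (hfree : ∀ i ∈ cnb G v, 2 ≤ (cnb G i ∩ (E \ A)).card)
    (h : Vanish K (Bad G A (insert v E)) r) : Vanish K (Bad G A E) r := by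
  refine Vanish.of_free (Bad.up A E) (v := v) ?_ (by rw [add_bad]; exact h)
  intro m hm
  rw [colon_bad hvE] at hm
  by_contra hcon
  unfold Bad at hcon
  push Not at hcon
  obtain ⟨h1, h2⟩ := hcon
  rcases hm with ⟨j, hj, hjm⟩ | ⟨i, hi⟩
  · exact h1 j hj hjm
  · by_cases hiv : i ∈ cnb G v
    · have := hfree i hiv
      have h3 : (cnb G i ∩ (E \ A)).card ≤ (cnb G i \ (insert v A ∪ m.support)).card := by
        apply Finset.card_le_card
        intro x hx
        simp only [Finset.mem_inter, Finset.mem_sdiff] at hx
        simp only [Finset.mem_sdiff, Finset.mem_union, Finset.mem_insert, not_or]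
        refine ⟨hx.1, ⟨?_, hx.2.2⟩, h1 x hx.2.1⟩
        rintro rfl
        exact hvE hx.2.1
      omega
    · have h3 : cnb G i \ (A ∪ m.support) = cnb G i \ (insert v A ∪ m.support) := by
        ext x
        simp only [Finset.mem_sdiff, Finset.mem_union, Finset.mem_insert, not_or]
        constructor
        · rintro ⟨hx, hx1, hx2⟩
          refine ⟨hx, ⟨?_, hx1⟩, hx2⟩
          rintro rfl
          apply hiv
          rw [mem_cnb] at hx ⊢
          rcases hx with h | h
          · exact Or.inl h.symm
          · exact Or.inr h.symm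
        · rintro ⟨hx, ⟨_, hx1⟩, hx2⟩
          exact ⟨hx, hx1, hx2⟩
      have := h2 i
      rw [h3] at this
      omega

/-- Branching over a set of variables. -/
lemma vanish_branch (Z : Finset (Fin n)) : ∀ (A E : Finset (Fin n)) (r : ℕ), Disjoint Z E →
    Disjoint Z A →
    (∀ B ⊆ Z, NonVoid G (A ∪ B) → ∃ r', r' + B.card ≤ r ∧
      Vanish K (Bad G (A ∪ B) (E ∪ Z)) r') → Vanish K (Bad G A E) r := by
  classical
  induction Z using Finset.induction_on with
  | empty =>
    intro A E r _ _ h
    by_cases hA : NonVoid G A
    · obtain ⟨r', hr', hV⟩ := h ∅ (Finset.Subset.refl _) (by simpa using hA)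
      have := hV.mono (r' := r) (by simpa using hr')
      simpa using this
    · apply Vanish.of_all
      intro m
      right
      unfold NonVoid at hA
      push Not at hA
      obtain ⟨i, hi⟩ := hA
      refine ⟨i, ?_⟩
      have : (cnb G i \ (A ∪ m.support)).card ≤ (cnb G i \ A).card :=
        Finset.card_le_card (Finset.sdiff_subset_sdiff (Finset.Subset.refl _)
          Finset.subset_union_left)
      omega
  | insert x Z hxZ ih =>
    intro A E r hdE hdA h
    have hxE : x ∉ E := (Finset.disjoint_left.1 hdE) (Finset.mem_insert_self _ _)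
    have hxA : x ∉ A := (Finset.disjoint_left.1 hdA) (Finset.mem_insert_self _ _)
    have hd1 : Disjoint Z (insert x E) := by
      rw [Finset.disjoint_left]
      intro y hy hyE
      rcases Finset.mem_insert.1 hyE with rfl | hyE
      · exact hxZ hy
      · exact (Finset.disjoint_left.1 hdE) (Finset.mem_insert_of_mem hy) hyE
    have hd2 : Disjoint Z A := Finset.disjoint_of_subset_left (Finset.subset_insert _ _) hdA
    have hd3 : Disjoint Z (insert x A) := by
      rw [Finset.disjoint_left]
      intro y hy hyE
      rcases Finset.mem_insert.1 hyE with rfl | hyE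
      · exact hxZ hy
      · exact (Finset.disjoint_left.1 hd2) hy hyE
    have eU : insert x E ∪ Z = E ∪ insert x Z := by
      ext y; simp only [Finset.mem_union, Finset.mem_insert]; tauto
    have h1 : Vanish K (Bad G A (insert x E)) r := by
      apply ih A (insert x E) r hd1 hd2
      intro B hB hn
      obtain ⟨r', hr', hV⟩ := h B (hB.trans (Finset.subset_insert _ _)) hn
      exact ⟨r', hr', by rw [eU]; exact hV⟩
    by_cases hv : NonVoid G (insert x A)
    · obtain ⟨r', hr', _⟩ := h {x} (by simp) (by
        rw [Finset.union_comm, ← Finset.insert_eq]; exact hv)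
      rw [Finset.card_singleton] at hr'
      obtain ⟨r0, rfl⟩ : ∃ r0, r = r0 + 1 := ⟨r - 1, by omega⟩
      have h2 : Vanish K (Bad G (insert x A) (insert x E)) r0 := by
        apply ih (insert x A) (insert x E) r0 hd1 hd3
        intro B hB hn
        have hxB : x ∉ B := fun h => hxZ (hB h)
        have e1 : A ∪ insert x B = insert x A ∪ B := by
          ext y; simp only [Finset.mem_union, Finset.mem_insert]; tauto
        obtain ⟨r', hr', hV⟩ := h (insert x B) (Finset.insert_subset_insert _ hB)
          (by rw [e1]; exact hn)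
        rw [Finset.card_insert_of_notMem hxB] at hr'
        exact ⟨r', by omega, by rw [eU, ← e1]; exact hV⟩
      have h3 : Vanish K (Bad G (insert x A) E) r0 :=
        vanish_mem K hxE (Finset.mem_insert_self _ _) h2
      refine Vanish.of_colon_add (Bad.up A E) (v := x) ?_ ?_
      · rw [colon_bad hxE]; exact h3
      · rw [add_bad]; exact h1
    · exact vanish_void K hv h1

/-- Free variables, all at once. -/
lemma vanish_free_set (Z : Finset (Fin n)) : ∀ (A E : Finset (Fin n)) (r : ℕ), Disjoint Z E →
    (∀ v ∈ Z, ∀ i ∈ cnb G v, 2 ≤ (cnb G i ∩ (E \ A)).card) →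
    Vanish K (Bad G A (E ∪ Z)) r → Vanish K (Bad G A E) r := by
  classical
  induction Z using Finset.induction_on with
  | empty => intro A E r _ _ h; simpa using h
  | insert x Z hxZ ih =>
    intro A E r hdE hfree h
    have hxE : x ∉ E := (Finset.disjoint_left.1 hdE) (Finset.mem_insert_self _ _)
    have hd1 : Disjoint Z (insert x E) := by
      rw [Finset.disjoint_left]
      intro y hy hyE
      rcases Finset.mem_insert.1 hyE with rfl | hyE
      · exact hxZ hy
      · exact (Finset.disjoint_left.1 hdE) (Finset.mem_insert_of_mem hy) hyE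
    have eU : insert x E ∪ Z = E ∪ insert x Z := by
      ext y; simp only [Finset.mem_union, Finset.mem_insert]; tauto
    apply vanish_free K hxE (hfree x (Finset.mem_insert_self _ _))
    apply ih A (insert x E) r hd1
    · intro v hv i hi
      refine le_trans (hfree v (Finset.mem_insert_of_mem hv) i hi) (Finset.card_le_card ?_)
      apply Finset.inter_subset_inter_left
      exact Finset.sdiff_subset_sdiff (Finset.subset_insert _ _) (Finset.Subset.refl _)
    · rw [eU]; exact h

/-- All variables set. -/
lemma vanish_univ (A : Finset (Fin n)) : Vanish K (Bad G A Finset.univ) 0 := by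
  apply Vanish.of_max
  intro m hm
  left
  obtain ⟨j, hj⟩ := Finsupp.ne_iff.1 hm
  exact ⟨j, Finset.mem_univ _, by simpa using hj⟩

end Pool.Agent.K4H12
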