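import Mathlib
import Pool.Agent.K4H12.State
import Pool.Agent.H255R3.STC.Chordal

/-!
Combinatorics of minimal vertex covers of chordal graphs.
-/

set_option autoImplicit false
set_option linter.unusedSectionVars false

namespace Pool.Agent.K4H12

open Classical Finset

variable {n : ℕ} {G : SimpleGraph (Fin n)}

/-- `o` is (the position function of) a perfect elimination order. -/
def IsPEO (G : SimpleGraph (Fin n)) (o : Fin n → ℕ) : Prop :=
  (∀ a b, o a = o b → a = b) ∧
  ∀ v a b, o v < o a → o v < o b → G.Adj v a → G.Adj v b → a ≠ b → G.Adj a b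

lemma exists_peo_aux (hG : H255R3.STC.IsChordal G) : ∀ (m : ℕ) (s : Finset (Fin n)), s.card = m →
    ∃ o : Fin n → ℕ, (∀ a ∈ s, ∀ b ∈ s, o a = o b → a = b) ∧
      ∀ v ∈ s, ∀ a ∈ s, ∀ b ∈ s, o v < o a → o v < o b → G.Adj v a → G.Adj v b → a ≠ b →
        G.Adj a b := by
  intro m
  induction m with
  | zero =>
    intro s hs
    rw [Finset.card_eq_zero] at hs
    subst hs
    exact ⟨fun _ => 0, by simp, by simp⟩
  | succ m ih =>
    intro s hs
    have hex : ∃ z ∈ s, ∀ a ∈ s, ∀ b ∈ s, G.Adj z a → G.Adj z b → a ≠ b → G.Adj a b := by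
      by_cases h : ∃ v ∈ s, ∃ w ∈ s, w ≠ v ∧ ¬ G.Adj v w
      · obtain ⟨v, hv, w, hw, hwv, hvw⟩ := h
        obtain ⟨z, hz, _, _, hz'⟩ :=
          H255R3.STC.exists_simplicial hG s.card s le_rfl v hv w hw hwv hvw
        exact ⟨z, hz, hz'⟩
      · push Not at h
        obtain ⟨z, hz⟩ : s.Nonempty := Finset.card_pos.1 (by omega)
        exact ⟨z, hz, fun a ha b hb _ _ hab => h a ha b hb hab.symm⟩
    obtain ⟨z, hz, hsimp⟩ := hex
    obtain ⟨o, ho1, ho2⟩ := ih (s.erase z) (by rw [Finset.card_erase_of_mem hz]; omega)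
    refine ⟨fun x => if x = z then 0 else o x + 1, ?_, ?_⟩
    · intro a ha b hb hab
      by_cases haz : a = z
      · by_cases hbz : b = z
        · rw [haz, hbz]
        · simp [haz, hbz] at hab
      · by_cases hbz : b = z
        · simp [haz, hbz] at hab
        · simp only [haz, hbz, if_false] at hab
          exact ho1 a (Finset.mem_erase.2 ⟨haz, ha⟩) b (Finset.mem_erase.2 ⟨hbz, hb⟩) (by omega)
    · intro v hv a ha b hb hva hvb h1 h2 hab
      by_cases haz : a = z
      · simp [haz] at hva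
      · by_cases hbz : b = z
        · simp [hbz] at hvb
        · by_cases hvz : v = z
          · subst hvz
            exact hsimp a ha b hb h1 h2 hab
          · simp only [haz, hbz, hvz, if_false] at hva hvb
            exact ho2 v (Finset.mem_erase.2 ⟨hvz, hv⟩) a (Finset.mem_erase.2 ⟨haz, ha⟩) b
              (Finset.mem_erase.2 ⟨hbz, hb⟩) (by omega) (by omega) h1 h2 hab

lemma exists_peo (hG : H255R3.STC.IsChordal G) : ∃ o, IsPEO G o := by
  obtain ⟨o, h1, h2⟩ := exists_peo_aux hG _ Finset.univ rfl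
  exact ⟨o, fun a b => h1 a (Finset.mem_univ _) b (Finset.mem_univ _),
    fun v a b => h2 v (Finset.mem_univ _) a (Finset.mem_univ _) b (Finset.mem_univ _)⟩

/-- vertices outside the cover with at most one neighbor in `C \ A` -/
noncomputable def Y1 (G : SimpleGraph (Fin n)) (C A : Finset (Fin n)) : Finset (Fin n) :=
  Finset.univ.filter fun j => j ∉ C ∧ (cnb G j ∩ (C \ A)).card ≤ 1

/-- vertices outside the cover with at least two neighbors in `C \ A` -/
noncomputable def Y2 (G : SimpleGraph (Fin n)) (C A : Finset (Fin n)) : Finset (Fin n) :=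
  Finset.univ.filter fun j => j ∉ C ∧ 2 ≤ (cnb G j ∩ (C \ A)).card

/-- vertices of the cover with few forced neighbors -/
noncomputable def Xs (G : SimpleGraph (Fin n)) (C A : Finset (Fin n)) : Finset (Fin n) :=
  Finset.univ.filter fun i => i ∈ C ∧ (cnb G i ∩ (C \ A)).card + (cnb G i ∩ Y1 G C A).card ≤ 1

/-- the vertices outside the cover that are not free -/
noncomputable def Ys (G : SimpleGraph (Fin n)) (C A : Finset (Fin n)) : Finset (Fin n) :=
  (Y2 G C A).filter fun j => ∃ i ∈ Xs G C A, G.Adj i j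

lemma comb {o : Fin n → ℕ} (hP : IsPEO G o) {C : Finset (Fin n)}
    (hcov : ∀ a b, G.Adj a b → a ∈ C ∨ b ∈ C) (hmin : ∀ c ∈ C, ∃ j, j ∉ C ∧ G.Adj c j)
    {A B : Finset (Fin n)} (_hA : A ⊆ C) (hB : B ⊆ Ys G C A) (hn : NonVoid G (A ∪ B)) :
    B.card + Nat.card G.ConnectedComponent ≤ (C \ A).card := by
  obtain ⟨hinj, hcl⟩ := hP
  set D := C \ A with hD
  have hind : ∀ a b, a ∉ C → b ∉ C → ¬ G.Adj a b := by
    intro a b ha hb hab
    rcases hcov a b hab with h | h
    · exact ha h
    · exact hb h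
  have hDC : ∀ d, d ∈ D → d ∈ C := fun d hd => (Finset.mem_sdiff.1 hd).1
  have hY2 : ∀ j, j ∈ Y2 G C A ↔ j ∉ C ∧ 2 ≤ (cnb G j ∩ D).card := by
    intro j; unfold Y2; simp [hD]
  have hY1 : ∀ j, j ∈ Y1 G C A ↔ j ∉ C ∧ (cnb G j ∩ D).card ≤ 1 := by
    intro j; unfold Y1; simp [hD]
  have hXs : ∀ i, i ∈ Xs G C A ↔ i ∈ C ∧
      (cnb G i ∩ D).card + (cnb G i ∩ Y1 G C A).card ≤ 1 := by
    intro i; unfold Xs; simp [hD]
  have hYs : ∀ j, j ∈ Ys G C A ↔ j ∈ Y2 G C A ∧ ∃ i ∈ Xs G C A, G.Adj i j := by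
    intro j; unfold Ys; simp
  -- every vertex outside `C` has a neighbor in `D`
  have H1 : ∀ j, j ∉ C → ∃ d ∈ D, G.Adj j d := by
    intro j hj
    obtain ⟨x, hx, hxj⟩ := Finset.exists_mem_ne (lt_of_lt_of_le one_lt_two (hn j)) j
    rw [Finset.mem_sdiff, mem_cnb, Finset.mem_union, not_or] at hx
    have hjx : G.Adj j x := hx.1.resolve_left hxj
    have hxC : x ∈ C := (hcov j x hjx).resolve_left hj
    exact ⟨x, Finset.mem_sdiff.2 ⟨hxC, hx.2.1⟩, hjx⟩
  have H2 : ∀ d y y', y ∉ C → y' ∉ C → o d < o y → o d < o y' → G.Adj d y → G.Adj d y' →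
      y = y' := by
    intro d y y' hy hy' h1 h2 h3 h4
    by_contra hne
    exact hind y y' hy hy' (hcl d y y' h1 h2 h3 h4 hne)
  have H3 : ∀ i ∈ Xs G C A, ∃ z ∈ Y2 G C A, z ∉ B ∧ G.Adj i z := by
    intro i hi
    rw [hXs] at hi
    by_contra hcon
    push Not at hcon
    have hsub : cnb G i \ (A ∪ B) ⊆ (cnb G i ∩ D) ∪ (cnb G i ∩ Y1 G C A) := by
      intro x hx
      rw [Finset.mem_sdiff, Finset.mem_union, not_or] at hx
      rw [Finset.mem_union, Finset.mem_inter, Finset.mem_inter]
      by_cases hxC : x ∈ C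
      · exact Or.inl ⟨hx.1, Finset.mem_sdiff.2 ⟨hxC, hx.2.1⟩⟩
      · right
        refine ⟨hx.1, ?_⟩
        rw [hY1]
        refine ⟨hxC, ?_⟩
        by_contra h2
        have hx2 : x ∈ Y2 G C A := by rw [hY2]; exact ⟨hxC, by omega⟩
        have hix : G.Adj i x := by
          rcases mem_cnb.1 hx.1 with h | h
          · exact absurd (h ▸ hi.1) hxC
          · exact h
        exact hcon x hx2 hx.2.2 hix
    have h1 := hn i
    have h2 := Finset.card_le_card hsub
    have h3 := Finset.card_union_le (cnb G i ∩ D) (cnb G i ∩ Y1 G C A)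
    omega
  have H4 : ∀ y ∈ Y2 G C A, ∀ i ∈ Xs G C A, G.Adj i y → o y < o i →
      ∃ d ∈ D, G.Adj d y ∧ o d < o y := by
    intro y hy i hi hiy hlt
    rw [hY2] at hy
    rw [hXs] at hi
    by_contra hcon
    push Not at hcon
    have hsub : cnb G y ∩ D ⊆ cnb G i ∩ D := by
      intro d hd
      rw [Finset.mem_inter] at hd ⊢
      refine ⟨?_, hd.2⟩
      have hdy : d ≠ y := fun h => hy.1 (h ▸ hDC d hd.2)
      have hyd : G.Adj y d := (mem_cnb.1 hd.1).resolve_left hdy
      have h1 : o y < o d := by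
        have := hcon d hd.2 hyd.symm
        rcases Nat.lt_or_eq_of_le this with h | h
        · exact h
        · exact absurd (hinj _ _ h).symm hdy
      rw [mem_cnb]
      by_cases hdi : d = i
      · exact Or.inl hdi
      · exact Or.inr (hcl y i d hlt h1 hiy.symm hyd (Ne.symm hdi))
    have := Finset.card_le_card hsub
    omega
  -- the vertices with an earlier neighbor in `D`
  set Q := (Y2 G C A).filter fun y => ∃ d ∈ D, G.Adj d y ∧ o d < o y with hQ
  have H5 : ∀ b ∈ B, ∃ y ∈ Q, y = b ∨ (y ∉ B ∧ b ∉ Q ∧ ∃ i ∈ Xs G C A, G.Adj i b ∧ G.Adj i y ∧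
      o y < o i ∧ o i < o b) := by
    intro b hb
    have hbY := hB hb
    rw [hYs] at hbY
    by_cases hbQ : b ∈ Q
    · exact ⟨b, hbQ, Or.inl rfl⟩
    · obtain ⟨hb2, i, hi, hib⟩ := hbY
      have hbC : b ∉ C := ((hY2 b).1 hb2).1
      have hiC : i ∈ C := ((hXs i).1 hi).1
      have h1 : o i < o b := by
        rcases Nat.lt_trichotomy (o i) (o b) with h | h | h
        · exact h
        · exact absurd (hinj _ _ h ▸ hiC) hbC
        · exfalso
          apply hbQ
          rw [hQ, Finset.mem_filter]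
          exact ⟨hb2, H4 b hb2 i hi hib h⟩
      obtain ⟨z, hz2, hzB, hiz⟩ := H3 i hi
      have hzC : z ∉ C := ((hY2 z).1 hz2).1
      have hzb : z ≠ b := fun h => hzB (h ▸ hb)
      have h2 : o z < o i := by
        rcases Nat.lt_trichotomy (o z) (o i) with h | h | h
        · exact h
        · exact absurd (hinj _ _ h ▸ hiC) hzC
        · exact absurd (H2 i z b hzC hbC h h1 hiz hib) hzb
      refine ⟨z, ?_, Or.inr ⟨hzB, hbQ, i, hi, hib, hiz, h2, h1⟩⟩
      rw [hQ, Finset.mem_filter]
      exact ⟨hz2, H4 z hz2 i hi hiz h2⟩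
  choose! ψ hψQ hψ using H5
  have hψinj : Set.InjOn ψ B := by
    intro b hb b' hb' he
    have hbC : b ∉ C := ((hY2 b).1 ((hYs b).1 (hB hb)).1).1
    have hbC' : b' ∉ C := ((hY2 b').1 ((hYs b').1 (hB hb')).1).1
    have hzC : ψ b ∉ C := ((hY2 _).1 (Finset.mem_filter.1 (hψQ b hb)).1).1
    rcases hψ b hb with h1 | ⟨h1, h1', i, hi, hib, hiz, h2, h3⟩
    · rcases hψ b' hb' with h4 | ⟨h4, -⟩
      · rw [← h1, ← h4, he]
      · rw [← he, h1] at h4
        exact absurd hb h4
    · rcases hψ b' hb' with h4 | ⟨h4, h4', i', hi', hib', hiz', h5, h6⟩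
      · rw [he, h4] at h1
        exact absurd hb' h1
      · rw [← he] at hiz' h5
        have hiC : i ∈ C := ((hXs i).1 hi).1
        have hiC' : i' ∈ C := ((hXs i').1 hi').1
        by_cases hii : i = i'
        · subst hii
          exact H2 i b b' hbC hbC' h3 h6 hib hib'
        · have hadj : G.Adj i i' := hcl (ψ b) i i' h2 h5 hiz.symm hiz'.symm hii
          rcases Nat.lt_trichotomy (o i) (o i') with h | h | h
          · -- i < i'
            have h7 : G.Adj i' b := hcl i i' b h h3 hadj hib (fun h8 => hbC (h8 ▸ hiC'))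
            have hbQ : b ∉ Q := h1'
            have h8 : o i' < o b := by
              rcases Nat.lt_trichotomy (o i') (o b) with h | h | h
              · exact h
              · exact absurd (hinj _ _ h ▸ hiC') hbC
              · exfalso
                apply hbQ
                rw [hQ, Finset.mem_filter]
                have hb2 := ((hYs b).1 (hB hb)).1
                exact ⟨hb2, H4 b hb2 i' hi' h7 h⟩
            exact H2 i' b b' hbC hbC' h8 h6 h7 hib'
          · exact absurd (hinj _ _ h) hii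
          · have h7 : G.Adj i b' := hcl i' i b' h h6 hadj.symm hib' (fun h8 => hbC' (h8 ▸ hiC))
            have h8 : o i < o b' := by
              rcases Nat.lt_trichotomy (o i) (o b') with h | h | h
              · exact h
              · exact absurd (hinj _ _ h ▸ hiC) hbC'
              · exfalso
                apply h4'
                rw [hQ, Finset.mem_filter]
                have hb2 := ((hYs b').1 (hB hb')).1
                exact ⟨hb2, H4 b' hb2 i hi h7 h⟩
            exact H2 i b b' hbC hbC' h3 h8 hib h7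
  have hBQ : B.card ≤ Q.card := by
    apply Finset.card_le_card_of_injOn ψ _ hψinj
    intro b hb
    exact hψQ b hb
  have hδ : ∀ y ∈ Q, ∃ d ∈ D, G.Adj d y ∧ o d < o y := fun y hy => (Finset.mem_filter.1 hy).2
  choose! δ hδD hδadj hδlt using hδ
  have hQC : ∀ y ∈ Q, y ∉ C := fun y hy => ((hY2 _).1 (Finset.mem_filter.1 hy).1).1
  have hδinj : Set.InjOn δ Q := by
    intro y hy y' hy' he
    exact H2 (δ y) y y' (hQC y hy) (hQC y' hy') (hδlt y hy) (he ▸ hδlt y' hy') (hδadj y hy)
      (he ▸ hδadj y' hy')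
  set W := Q.image δ with hW
  have hWcard : W.card = Q.card := Finset.card_image_of_injOn hδinj
  have hWD : W ⊆ D := by
    intro d hd
    obtain ⟨y, hy, rfl⟩ := Finset.mem_image.1 hd
    exact hδD y hy
  have hcomp : ∀ c : G.ConnectedComponent, ∃ d ∈ D \ W, G.connectedComponentMk d = c := by
    intro c
    induction c using SimpleGraph.ConnectedComponent.ind with
    | h v =>
      -- the component contains an element of `D`
      have hne : ∃ d ∈ D, G.Reachable d v := by
        by_cases hv : v ∈ C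
        · obtain ⟨j, hj, hvj⟩ := hmin v hv
          obtain ⟨d, hd, hjd⟩ := H1 j hj
          exact ⟨d, hd, hjd.symm.reachable.trans hvj.symm.reachable⟩
        · obtain ⟨d, hd, hjd⟩ := H1 v hv
          exact ⟨d, hd, hjd.symm.reachable⟩
      obtain ⟨d, hdm, hmax⟩ := Finset.exists_max_image (D.filter fun d => G.Reachable d v) o (by
        obtain ⟨d, hd, hr⟩ := hne
        exact ⟨d, Finset.mem_filter.2 ⟨hd, hr⟩⟩)
      rw [Finset.mem_filter] at hdm
      by_cases hdW : d ∈ W
      · obtain ⟨y, hy, hyd⟩ := Finset.mem_image.1 hdW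
        have hyC := hQC y hy
        have hlt := hδlt y hy
        have hadj := hδadj y hy
        rw [hyd] at hlt hadj
        obtain ⟨d', hd', hdd⟩ := Finset.exists_mem_ne
          (lt_of_lt_of_le one_lt_two ((hY2 y).1 (Finset.mem_filter.1 hy).1).2) d
        rw [Finset.mem_inter] at hd'
        have hd'y : d' ≠ y := fun h => hyC (h ▸ hDC d' hd'.2)
        have hyd' : G.Adj y d' := (mem_cnb.1 hd'.1).resolve_left hd'y
        have hreach : G.Reachable d' v :=
          hyd'.symm.reachable.trans (hadj.symm.reachable.trans hdm.2)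
        have hle := hmax d' (Finset.mem_filter.2 ⟨hd'.2, hreach⟩)
        refine ⟨d', Finset.mem_sdiff.2 ⟨hd'.2, ?_⟩, SimpleGraph.ConnectedComponent.eq.2 hreach⟩
        intro hd'W
        obtain ⟨y', hy', hyd2⟩ := Finset.mem_image.1 hd'W
        have hlt' := hδlt y' hy'
        have hadj' := hδadj y' hy'
        rw [hyd2] at hlt' hadj'
        have : y = y' := H2 d' y y' hyC (hQC y' hy') (by omega) hlt' hyd'.symm hadj'
        subst this
        exact hdd (hyd2.symm.trans hyd)
      · exact ⟨d, Finset.mem_sdiff.2 ⟨hdm.1, hdW⟩, SimpleGraph.ConnectedComponent.eq.2 hdm.2⟩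
  have hcc : Nat.card G.ConnectedComponent ≤ (D \ W).card := by
    choose φ hφ hφ' using hcomp
    rw [Nat.card_eq_fintype_card, ← Finset.card_univ]
    apply Finset.card_le_card_of_injOn φ
    · intro c _
      exact hφ c
    · intro c _ c' _ h
      rw [← hφ' c, ← hφ' c', h]
  have hsum : (D \ W).card + W.card = D.card := Finset.card_sdiff_add_card_eq_card hWD
  omega

end Pool.Agent.K4H12
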