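import Mathlib

/-!
Helper file for `MP_56182f_pr`: Bernoulli bond percolation on a finite edge set, exploration of the
cluster of one vertex edge by edge.
-/

open Finset

namespace Pool.Agent.K4H12.Perc

variable {V : Type*}

/-- connection through open edges -/
def PCon (S : Finset (Sym2 V)) (x y : V) : Prop :=
  Relation.ReflTransGen (fun x y => s(x, y) ∈ S) x y

/-- connection through open edges avoiding `D` -/
def ConOff (D : Set V) (S : Finset (Sym2 V)) (x y : V) : Prop :=
  Relation.ReflTransGen (fun x y => s(x, y) ∈ S ∧ x ∉ D ∧ y ∉ D) x y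

/-- `D` is connected to `x` -/
def T (D : Set V) (S : Finset (Sym2 V)) (x : V) : Prop := ∃ w ∈ D, PCon S w x

theorem PCon.symm {S : Finset (Sym2 V)} {x y : V} (h : PCon S x y) : PCon S y x := by
  induction h with
  | refl => exact Relation.ReflTransGen.refl
  | tail _ h ih =>
    refine Relation.ReflTransGen.head ?_ ih
    rw [Sym2.eq_swap]; exact h

theorem PCon.mono {S S' : Finset (Sym2 V)} (hS : S ⊆ S') {x y : V} (h : PCon S x y) :
    PCon S' x y := by
  induction h with
  | refl => exact Relation.ReflTransGen.refl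
  | tail _ h ih => exact Relation.ReflTransGen.tail ih (hS h)

theorem ConOff.symm {D : Set V} {S : Finset (Sym2 V)} {x y : V} (h : ConOff D S x y) :
    ConOff D S y x := by
  induction h with
  | refl => exact Relation.ReflTransGen.refl
  | tail _ h ih =>
    refine Relation.ReflTransGen.head ⟨?_, h.2.2, h.2.1⟩ ih
    rw [Sym2.eq_swap]; exact h.1

theorem ConOff.con {D : Set V} {S : Finset (Sym2 V)} {x y : V} (h : ConOff D S x y) :
    PCon S x y := by
  induction h with
  | refl => exact Relation.ReflTransGen.refl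
  | tail _ h ih => exact Relation.ReflTransGen.tail ih h.1

theorem T.mono {D : Set V} {S S' : Finset (Sym2 V)} (hS : S ⊆ S') {x : V} (h : T D S x) :
    T D S' x := by
  obtain ⟨w, hw, h⟩ := h
  exact ⟨w, hw, h.mono hS⟩

theorem T.tail {D : Set V} {S : Finset (Sym2 V)} {x y : V} (h : T D S x) (hxy : PCon S x y) :
    T D S y := by
  obtain ⟨w, hw, h⟩ := h
  exact ⟨w, hw, Relation.ReflTransGen.trans h hxy⟩

/-- the last exit of a path from `D` -/
theorem last_exit {D : Set V} {S : Finset (Sym2 V)} {x : V} (h : T D S x) (hx : x ∉ D) :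
    ∃ w w' : V, w ∈ D ∧ w' ∉ D ∧ s(w, w') ∈ S ∧ ConOff D S w' x := by
  obtain ⟨w₀, hw₀, h⟩ := h
  induction h with
  | refl => exact absurd hw₀ hx
  | @tail y x _ hyx ih =>
    by_cases hy : y ∈ D
    · exact ⟨y, x, hy, hx, hyx, Relation.ReflTransGen.refl⟩
    · obtain ⟨w, w', hw, hw', hS, hc⟩ := ih hy
      exact ⟨w, w', hw, hw', hS, Relation.ReflTransGen.tail hc ⟨hyx, hy, hx⟩⟩

/-- vertices connected by an off-`D` path starting off `D` are off `D` -/
theorem off_of_ConOff {D : Set V} {S : Finset (Sym2 V)} {x y : V} (h : ConOff D S x y)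
    (hx : x ∉ D) : y ∉ D := by
  induction h with
  | refl => exact hx
  | tail _ h _ => exact h.2.2

section Swap

/-- edge `e` touches the vertex set `K` -/
def touch (K : Set V) (e : Sym2 V) : Prop := ∃ v ∈ e, v ∈ K

open Classical in
/-- edges of `S` touching the set `K`, edges of `S'` not touching it -/
noncomputable def mix (K : Set V) (S S' : Finset (Sym2 V)) : Finset (Sym2 V) :=
  S.filter (touch K) ∪ S'.filter (fun e => ¬ touch K e)

theorem mem_mix {K : Set V} {S S' : Finset (Sym2 V)} {e : Sym2 V} :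
    e ∈ mix K S S' ↔ (e ∈ S ∧ touch K e) ∨ (e ∈ S' ∧ ¬ touch K e) := by
  simp [mix]

theorem touch_left {K : Set V} {x y : V} (h : x ∈ K) : touch K s(x, y) :=
  ⟨x, Sym2.mem_mk_left _ _, h⟩

theorem touch_right {K : Set V} {x y : V} (h : y ∈ K) : touch K s(x, y) :=
  ⟨y, Sym2.mem_mk_right _ _, h⟩

theorem touch_iff {K : Set V} {x y : V} : touch K s(x, y) ↔ x ∈ K ∨ y ∈ K := by
  constructor
  · rintro ⟨v, hv, hK⟩
    rw [Sym2.mem_iff] at hv
    rcases hv with rfl | rfl
    · exact Or.inl hK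
    · exact Or.inr hK
  · rintro (h | h)
    · exact touch_left h
    · exact touch_right h

/-- off-`D` cluster of `b` -/
def KK (D : Set V) (b : V) (S : Finset (Sym2 V)) : Set V := {y | ConOff D S b y}

theorem mem_KK {D : Set V} {b : V} {S : Finset (Sym2 V)} {y : V} :
    y ∈ KK D b S ↔ ConOff D S b y := Iff.rfl

theorem KK_mix (D : Set V) (b : V) (S S' : Finset (Sym2 V)) :
    KK D b (mix (KK D b S) S S') = KK D b S := by
  ext y
  rw [mem_KK, mem_KK]
  constructor
  · intro h
    induction h with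
    | refl => exact Relation.ReflTransGen.refl
    | @tail y y' _ h ih =>
      obtain ⟨h1, h2, h3⟩ := h
      rw [mem_mix] at h1
      have ht : touch (KK D b S) s(y, y') := touch_left ih
      rcases h1 with h1 | h1
      · exact Relation.ReflTransGen.tail ih ⟨h1.1, h2, h3⟩
      · exact absurd ht h1.2
  · intro h
    induction h with
    | refl => exact Relation.ReflTransGen.refl
    | @tail y y' hy h ih =>
      obtain ⟨h1, h2, h3⟩ := h
      refine Relation.ReflTransGen.tail ih ⟨?_, h2, h3⟩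
      rw [mem_mix]
      exact Or.inl ⟨h1, touch_left hy⟩

/-- the combined configuration is in the event `U` -/
theorem mix_U {D : Set V} {b c : V} (hb : b ∉ D) (hc : c ∉ D) {S S' : Finset (Sym2 V)}
    (h1 : T D S b) (h3 : ¬ ConOff D S b c) (h4 : ¬ T D S' c) :
    T D (mix (KK D b S) S S') b ∧ ¬ T D (mix (KK D b S) S S') c := by
  have hK := KK_mix D b S S'
  constructor
  · obtain ⟨w, w', hw, hw', hS, hcon⟩ := last_exit h1 hb
    have hw'K : w' ∈ KK D b S := hcon.symm
    have hw'K2 : w' ∈ KK D b (mix (KK D b S) S S') := by rw [hK]; exact hw'K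
    have hcon2 : PCon (mix (KK D b S) S S') w' b := (ConOff.con hw'K2).symm
    refine ⟨w, hw, Relation.ReflTransGen.head ?_ hcon2⟩
    rw [mem_mix]
    exact Or.inl ⟨hS, touch_right hw'K⟩
  · intro hT
    obtain ⟨w, w', hw, hw', hS, hcon⟩ := last_exit hT hc
    apply h4
    have hnotK : ∀ y, ConOff D (mix (KK D b S) S S') y c → y ∉ KK D b S := by
      intro y hy hyK
      apply h3
      have : c ∈ KK D b (mix (KK D b S) S S') := by
        rw [mem_KK]
        rw [← hK] at hyK
        exact Relation.ReflTransGen.trans hyK hy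
      rw [hK] at this
      exact this
    have key : PCon S' w' c := by
      have : ∀ y, ConOff D (mix (KK D b S) S S') y c → PCon S' y c := by
        intro y hy
        induction hy using Relation.ReflTransGen.head_induction_on with
        | refl => exact Relation.ReflTransGen.refl
        | @head y y' h hy' ih =>
          obtain ⟨g1, g2, g3⟩ := h
          refine Relation.ReflTransGen.head ?_ ih
          rw [mem_mix] at g1
          rcases g1 with g1 | g1
          · exfalso
            rw [touch_iff] at g1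
            rcases g1.2 with g | g
            · exact hnotK y (Relation.ReflTransGen.head ⟨by rw [mem_mix]; exact Or.inl ⟨g1.1, touch_left g⟩, g2, g3⟩ hy') g
            · exact hnotK y' hy' g
          · exact g1.1
      exact this w' hcon
    refine ⟨w, hw, Relation.ReflTransGen.head ?_ key⟩
    rw [mem_mix] at hS
    rcases hS with hS | hS
    · exfalso
      rw [touch_iff] at hS
      rcases hS.2 with g | g
      · exact off_of_ConOff g hb hw
      · exact hnotK w' hcon g
    · exact hS.1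

end Swap

section Steps

variable {D : Set V} {S : Finset (Sym2 V)}

theorem T_open [DecidableEq V] {k z : V} (hk : k ∈ D) (x : V) :
    T D (insert s(k, z) S) x ↔ T (insert z D) S x := by
  constructor
  · rintro ⟨w, hw, h⟩
    induction h with
    | refl => exact ⟨w, Set.mem_insert_of_mem _ hw, Relation.ReflTransGen.refl⟩
    | @tail y y' _ h ih =>
      rw [Finset.mem_insert] at h
      rcases h with h | h
      · rw [Sym2.eq_iff] at h
        rcases h with ⟨rfl, rfl⟩ | ⟨rfl, rfl⟩
        · exact ⟨y', Set.mem_insert _ _, Relation.ReflTransGen.refl⟩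
        · exact ⟨y', Set.mem_insert_of_mem _ hk, Relation.ReflTransGen.refl⟩
      · exact ih.tail (Relation.ReflTransGen.single h)
  · rintro ⟨w, hw, h⟩
    have h' : PCon (insert s(k, z) S) w x := h.mono (Finset.subset_insert _ _)
    rcases hw with rfl | hw
    · exact ⟨k, hk, Relation.ReflTransGen.head (Finset.mem_insert_self _ _) h'⟩
    · exact ⟨w, hw, h'⟩

theorem Con_open [DecidableEq V] {k z b c : V} (hk : k ∈ D)
    (hb : ¬ T D (insert s(k, z) S) b) :
    PCon (insert s(k, z) S) b c ↔ PCon S b c := by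
  constructor
  · intro h
    induction h with
    | refl => exact Relation.ReflTransGen.refl
    | @tail y y' _ h ih =>
      rw [Finset.mem_insert] at h
      rcases h with h | h
      · exfalso
        have hy : PCon (insert s(k, z) S) y b := (ih.mono (Finset.subset_insert _ _)).symm
        apply hb
        rw [Sym2.eq_iff] at h
        rcases h with ⟨rfl, rfl⟩ | ⟨rfl, rfl⟩
        · exact ⟨y, hk, hy⟩
        · exact ⟨y', hk, Relation.ReflTransGen.head (Finset.mem_insert_self _ _) hy⟩
      · exact Relation.ReflTransGen.tail ih h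
  · exact fun h => h.mono (Finset.subset_insert _ _)

end Steps

/-! ### events -/

section Events

/-- `D, b, c` pairwise disconnected -/
def Y (D : Set V) (b c : V) (S : Finset (Sym2 V)) : Prop :=
  ¬ T D S b ∧ ¬ T D S c ∧ ¬ PCon S b c

/-- `b` is connected to `D`, `c` is not -/
def U (D : Set V) (b c : V) (S : Finset (Sym2 V)) : Prop := T D S b ∧ ¬ T D S c

/-- both `b` and `c` are connected to `D` -/
def X (D : Set V) (b c : V) (S : Finset (Sym2 V)) : Prop := T D S b ∧ T D S c

/-- both connected to `D`, but not to each other off `D` -/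
def E1 (D : Set V) (b c : V) (S : Finset (Sym2 V)) : Prop :=
  T D S b ∧ T D S c ∧ ¬ ConOff D S b c

theorem Y_open [DecidableEq V] {D : Set V} {S : Finset (Sym2 V)} {k z b c : V} (hk : k ∈ D) :
    Y D b c (insert s(k, z) S) ↔ Y (insert z D) b c S := by
  unfold Y
  rw [← T_open hk, ← T_open hk]
  constructor
  · rintro ⟨h1, h2, h3⟩
    exact ⟨h1, h2, fun h => h3 ((Con_open hk h1).2 h)⟩
  · rintro ⟨h1, h2, h3⟩
    exact ⟨h1, h2, fun h => h3 ((Con_open hk h1).1 h)⟩

theorem U_open [DecidableEq V] {D : Set V} {S : Finset (Sym2 V)} {k z b c : V} (hk : k ∈ D) :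
    U D b c (insert s(k, z) S) ↔ U (insert z D) b c S := by
  unfold U
  rw [← T_open hk, ← T_open hk]

theorem X_open [DecidableEq V] {D : Set V} {S : Finset (Sym2 V)} {k z b c : V} (hk : k ∈ D) :
    X D b c (insert s(k, z) S) ↔ X (insert z D) b c S := by
  unfold X
  rw [← T_open hk, ← T_open hk]

theorem Y_closed [DecidableEq V] {D : Set V} {S : Finset (Sym2 V)} {e : Sym2 V} {b c : V}
    (h : Y D b c (insert e S)) : Y D b c S :=
  ⟨fun h' => h.1 (h'.mono (Finset.subset_insert _ _)),
    fun h' => h.2.1 (h'.mono (Finset.subset_insert _ _)),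
    fun h' => h.2.2 (h'.mono (Finset.subset_insert _ _))⟩

/-- adding one vertex to `D` -/
theorem Y_add {D : Set V} {S : Finset (Sym2 V)} {z b c : V} (h : Y D b c S) :
    Y (insert z D) b c S ∨ U (insert z D) b c S ∨ U (insert z D) c b S := by
  obtain ⟨h1, h2, h3⟩ := h
  by_cases hb : T (insert z D) S b
  · by_cases hc : T (insert z D) S c
    · exfalso
      obtain ⟨w, hw, h⟩ := hb
      obtain ⟨w', hw', h'⟩ := hc
      rcases hw with rfl | hw
      · rcases hw' with rfl | hw'
        · exact h3 (Relation.ReflTransGen.trans h.symm h')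
        · exact h2 ⟨w', hw', h'⟩
      · exact h1 ⟨w, hw, h⟩
    · exact Or.inr (Or.inl ⟨hb, hc⟩)
  · by_cases hc : T (insert z D) S c
    · exact Or.inr (Or.inr ⟨hc, hb⟩)
    · exact Or.inl ⟨hb, hc, h3⟩

theorem not_con_cases {D : Set V} {S : Finset (Sym2 V)} {b c : V} (h : ¬ PCon S b c) :
    Y D b c S ∨ U D b c S ∨ U D c b S ∨ E1 D b c S := by
  by_cases hb : T D S b
  · by_cases hc : T D S c
    · exact Or.inr (Or.inr (Or.inr ⟨hb, hc, fun h' => h h'.con⟩))
    · exact Or.inr (Or.inl ⟨hb, hc⟩)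
  · by_cases hc : T D S c
    · exact Or.inr (Or.inr (Or.inl ⟨hc, hb⟩))
    · exact Or.inl ⟨hb, hc, h⟩

end Events

/-! ### probabilities -/

section Prob

variable [DecidableEq V]

/-- weight of the configuration `S ⊆ F` of open edges -/
noncomputable def wt (F : Finset (Sym2 V)) (p : Sym2 V → ℝ) (S : Finset (Sym2 V)) : ℝ :=
  ∏ e ∈ F, if e ∈ S then p e else 1 - p e

open Classical in
/-- probability of the event `Q` for percolation on `F` -/
noncomputable def Pr (F : Finset (Sym2 V)) (p : Sym2 V → ℝ) (Q : Finset (Sym2 V) → Prop) : ℝ :=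
  ∑ S ∈ F.powerset, if Q S then wt F p S else 0

theorem wt_nonneg {F : Finset (Sym2 V)} {p : Sym2 V → ℝ} (hp : ∀ e ∈ F, 0 ≤ p e ∧ p e ≤ 1)
    (S : Finset (Sym2 V)) : 0 ≤ wt F p S := by
  unfold wt
  refine Finset.prod_nonneg fun e he => ?_
  have := hp e he
  split_ifs <;> linarith

theorem Pr_nonneg {F : Finset (Sym2 V)} {p : Sym2 V → ℝ} (hp : ∀ e ∈ F, 0 ≤ p e ∧ p e ≤ 1)
    (Q : Finset (Sym2 V) → Prop) : 0 ≤ Pr F p Q := by
  unfold Pr
  refine Finset.sum_nonneg fun S _ => ?_
  split_ifs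
  · exact wt_nonneg hp S
  · exact le_rfl

theorem Pr_mono {F : Finset (Sym2 V)} {p : Sym2 V → ℝ} (hp : ∀ e ∈ F, 0 ≤ p e ∧ p e ≤ 1)
    {Q Q' : Finset (Sym2 V) → Prop} (h : ∀ S ⊆ F, Q S → Q' S) : Pr F p Q ≤ Pr F p Q' := by
  unfold Pr
  refine Finset.sum_le_sum fun S hS => ?_
  rw [Finset.mem_powerset] at hS
  have := wt_nonneg hp S
  by_cases h1 : Q S
  · rw [if_pos h1, if_pos (h S hS h1)]
  · rw [if_neg h1]
    split_ifs
    · exact this
    · exact le_rfl

theorem Pr_congr {F : Finset (Sym2 V)} {p : Sym2 V → ℝ}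
    {Q Q' : Finset (Sym2 V) → Prop} (h : ∀ S ⊆ F, (Q S ↔ Q' S)) : Pr F p Q = Pr F p Q' := by
  unfold Pr
  refine Finset.sum_congr rfl fun S hS => ?_
  rw [Finset.mem_powerset] at hS
  by_cases h1 : Q S
  · rw [if_pos h1, if_pos ((h S hS).1 h1)]
  · rw [if_neg h1, if_neg (fun h2 => h1 ((h S hS).2 h2))]

theorem Pr_or_le {F : Finset (Sym2 V)} {p : Sym2 V → ℝ} (hp : ∀ e ∈ F, 0 ≤ p e ∧ p e ≤ 1)
    (Q Q' : Finset (Sym2 V) → Prop) : Pr F p (fun S => Q S ∨ Q' S) ≤ Pr F p Q + Pr F p Q' := by
  unfold Pr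
  rw [← Finset.sum_add_distrib]
  refine Finset.sum_le_sum fun S _ => ?_
  have := wt_nonneg hp S
  by_cases h1 : Q S
  · by_cases h2 : Q' S
    · rw [if_pos (Or.inl h1), if_pos h1, if_pos h2]; linarith
    · rw [if_pos (Or.inl h1), if_pos h1, if_neg h2]; linarith
  · by_cases h2 : Q' S
    · rw [if_pos (Or.inr h2), if_neg h1, if_pos h2]; linarith
    · rw [if_neg (fun h => h.elim h1 h2), if_neg h1, if_neg h2]; linarith

theorem wt_insert_of_mem {F : Finset (Sym2 V)} {p : Sym2 V → ℝ} {e : Sym2 V} (he : e ∉ F)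
    (S : Finset (Sym2 V)) : wt (insert e F) p (insert e S) = p e * wt F p S := by
  unfold wt
  rw [Finset.prod_insert he, if_pos (Finset.mem_insert_self _ _)]
  congr 1
  refine Finset.prod_congr rfl fun f hf => ?_
  have hne : f ≠ e := fun h => he (h ▸ hf)
  by_cases hfS : f ∈ S
  · rw [if_pos (Finset.mem_insert_of_mem hfS), if_pos hfS]
  · rw [if_neg (by rw [Finset.mem_insert]; exact fun h => h.elim hne hfS), if_neg hfS]

theorem wt_insert_of_not_mem {F : Finset (Sym2 V)} {p : Sym2 V → ℝ} {e : Sym2 V} (he : e ∉ F)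
    {S : Finset (Sym2 V)} (hS : e ∉ S) : wt (insert e F) p S = (1 - p e) * wt F p S := by
  unfold wt
  rw [Finset.prod_insert he, if_neg hS]

/-- reveal one edge -/
theorem Pr_insert {F : Finset (Sym2 V)} {p : Sym2 V → ℝ} {e : Sym2 V} (he : e ∉ F)
    (Q : Finset (Sym2 V) → Prop) :
    Pr (insert e F) p Q = p e * Pr F p (fun S => Q (insert e S)) + (1 - p e) * Pr F p Q := by
  unfold Pr
  rw [Finset.sum_powerset_insert he, Finset.mul_sum, Finset.mul_sum, add_comm]
  congr 1
  · refine Finset.sum_congr rfl fun S _ => ?_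
    by_cases h : Q (insert e S)
    · rw [if_pos h, if_pos h, wt_insert_of_mem he]
    · rw [if_neg h, if_neg h, mul_zero]
  · refine Finset.sum_congr rfl fun S hS => ?_
    rw [Finset.mem_powerset] at hS
    by_cases h : Q S
    · rw [if_pos h, if_pos h, wt_insert_of_not_mem he (fun h => he (hS h))]
    · rw [if_neg h, if_neg h, mul_zero]

theorem Pr_true (F : Finset (Sym2 V)) (p : Sym2 V → ℝ) : Pr F p (fun _ => True) = 1 := by
  induction F using Finset.induction_on with
  | empty => simp [Pr, wt]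
  | insert e F he ih =>
    rw [Pr_insert he, ih]; ring

theorem Pr_le_one {F : Finset (Sym2 V)} {p : Sym2 V → ℝ} (hp : ∀ e ∈ F, 0 ≤ p e ∧ p e ≤ 1)
    (Q : Finset (Sym2 V) → Prop) : Pr F p Q ≤ 1 := by
  rw [← Pr_true F p]
  exact Pr_mono hp (fun _ _ _ => trivial)

theorem Pr_eq_zero {F : Finset (Sym2 V)} {p : Sym2 V → ℝ} {Q : Finset (Sym2 V) → Prop}
    (h : ∀ S ⊆ F, ¬ Q S) : Pr F p Q = 0 := by
  unfold Pr
  refine Finset.sum_eq_zero fun S hS => ?_
  rw [Finset.mem_powerset] at hS
  rw [if_neg (h S hS)]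

/-- the swapping inequality (B) -/
theorem E1_mul_le {F : Finset (Sym2 V)} {p : Sym2 V → ℝ} (hp : ∀ e ∈ F, 0 ≤ p e ∧ p e ≤ 1)
    {D : Set V} {b c : V} (hb : b ∉ D) (hc : c ∉ D) :
    Pr F p (E1 D b c) * Pr F p (fun S => ¬ T D S c) ≤ Pr F p (U D b c) := by
  classical
  have hR : Pr F p (U D b c) = Pr F p (U D b c) * Pr F p (fun _ => True) := by
    rw [Pr_true, mul_one]
  rw [hR]
  clear hR
  have expand : ∀ Q Q' : Finset (Sym2 V) → Prop, Pr F p Q * Pr F p Q' =
      ∑ x ∈ (F.powerset ×ˢ F.powerset).filter (fun x => Q x.1 ∧ Q' x.2),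
        wt F p x.1 * wt F p x.2 := by
    intro Q Q'
    unfold Pr
    rw [Finset.sum_mul_sum, Finset.sum_filter, Finset.sum_product]
    refine Finset.sum_congr rfl fun S _ => Finset.sum_congr rfl fun S' _ => ?_
    by_cases h1 : Q S
    · by_cases h2 : Q' S'
      · rw [if_pos h1, if_pos h2, if_pos ⟨h1, h2⟩]
      · rw [if_pos h1, if_neg h2, mul_zero, if_neg (fun h => h2 h.2)]
    · rw [if_neg h1, zero_mul, if_neg (fun h => h1 h.1)]
  let φ : Finset (Sym2 V) × Finset (Sym2 V) → Finset (Sym2 V) × Finset (Sym2 V) :=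
    fun x => (mix (KK D b x.1) x.1 x.2, mix (KK D b x.1) x.2 x.1)
  have hφφ : ∀ x, φ (φ x) = x := by
    rintro ⟨S, S'⟩
    simp only [φ]
    rw [KK_mix]
    refine Prod.ext ?_ ?_
    · ext e
      simp only [mem_mix]
      tauto
    · ext e
      simp only [mem_mix]
      tauto
  have hinj : Function.Injective φ := by
    intro x y h
    rw [← hφφ x, h, hφφ]
  have hw : ∀ x, wt F p (φ x).1 * wt F p (φ x).2 = wt F p x.1 * wt F p x.2 := by
    rintro ⟨S, S'⟩
    simp only [φ]
    unfold wt
    rw [← Finset.prod_mul_distrib, ← Finset.prod_mul_distrib]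
    refine Finset.prod_congr rfl fun e _ => ?_
    simp only [mem_mix]
    by_cases ht : touch (KK D b S) e
    · simp [ht]
    · simp [ht, mul_comm]
  obtain ⟨Q, hQ⟩ : ∃ Q : Finset (Sym2 V) → Prop, Q = E1 D b c := ⟨_, rfl⟩
  obtain ⟨Q', hQ'⟩ : ∃ Q' : Finset (Sym2 V) → Prop, Q' = fun S => ¬ T D S c := ⟨_, rfl⟩
  obtain ⟨R, hR⟩ : ∃ R : Finset (Sym2 V) → Prop, R = U D b c := ⟨_, rfl⟩
  obtain ⟨R', hR'⟩ : ∃ R' : Finset (Sym2 V) → Prop, R' = fun _ => True := ⟨_, rfl⟩
  rw [← hQ, ← hQ', ← hR, ← hR', expand, expand]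
  set A := (F.powerset ×ˢ F.powerset).filter
    (fun x : Finset (Sym2 V) × Finset (Sym2 V) => Q x.1 ∧ Q' x.2) with hA
  set B := (F.powerset ×ˢ F.powerset).filter
    (fun x : Finset (Sym2 V) × Finset (Sym2 V) => R x.1 ∧ R' x.2) with hB
  have h1 : ∑ x ∈ A, wt F p x.1 * wt F p x.2 = ∑ x ∈ A.image φ, wt F p x.1 * wt F p x.2 := by
    rw [Finset.sum_image (fun x _ y _ h => hinj h)]
    exact Finset.sum_congr rfl fun x _ => (hw x).symm
  rw [h1]
  refine Finset.sum_le_sum_of_subset_of_nonneg ?_ ?_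
  · intro y hy
    rw [Finset.mem_image] at hy
    obtain ⟨⟨S, S'⟩, hx, rfl⟩ := hy
    rw [hA, Finset.mem_filter, Finset.mem_product, Finset.mem_powerset, Finset.mem_powerset] at hx
    rw [hQ, hQ'] at hx
    obtain ⟨⟨hS, hS'⟩, ⟨g1, g2, g3⟩, g4⟩ := hx
    rw [hB, Finset.mem_filter, Finset.mem_product, Finset.mem_powerset, Finset.mem_powerset]
    rw [hR, hR']
    refine ⟨⟨?_, ?_⟩, mix_U hb hc g1 g3 g4, trivial⟩
    · intro e he
      simp only [φ, mem_mix] at he
      rcases he with he | he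
      · exact hS he.1
      · exact hS' he.1
    · intro e he
      simp only [φ, mem_mix] at he
      rcases he with he | he
      · exact hS' he.1
      · exact hS he.1
  · intro x _ _
    exact mul_nonneg (wt_nonneg hp _) (wt_nonneg hp _)

/-- (A), closed edge -/
theorem y_closed_le {F : Finset (Sym2 V)} {p : Sym2 V → ℝ}
    {e : Sym2 V} (he : e ∉ F) (hp : ∀ f ∈ insert e F, 0 ≤ p f ∧ p f ≤ 1) (D : Set V) (b c : V) :
    Pr (insert e F) p (Y D b c) ≤ Pr F p (Y D b c) := by
  rw [Pr_insert he]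
  have hpF : ∀ f ∈ F, 0 ≤ p f ∧ p f ≤ 1 := fun f hf => hp f (Finset.mem_insert_of_mem hf)
  have h1 : Pr F p (fun S => Y D b c (insert e S)) ≤ Pr F p (Y D b c) :=
    Pr_mono hpF (fun S _ h => Y_closed h)
  have h2 := (hp e (Finset.mem_insert_self _ _)).1
  nlinarith

/-- (A), open edge -/
theorem y_open_le {F : Finset (Sym2 V)} {p : Sym2 V → ℝ} {D : Set V} {k z : V} (hk : k ∈ D)
    (he : s(k, z) ∉ F) (hp : ∀ f ∈ insert s(k, z) F, 0 ≤ p f ∧ p f ≤ 1) (b c : V) :
    Pr (insert s(k, z) F) p (Y D b c) ≤ Pr F p (Y (insert z D) b c) +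
      (Pr F p (U (insert z D) b c) + Pr F p (U (insert z D) c b)) := by
  rw [Pr_insert he]
  have hpF : ∀ f ∈ F, 0 ≤ p f ∧ p f ≤ 1 := fun f hf => hp f (Finset.mem_insert_of_mem hf)
  have h1 : Pr F p (fun S => Y D b c (insert s(k, z) S)) = Pr F p (Y (insert z D) b c) :=
    Pr_congr (fun S _ => Y_open hk)
  have h2 := hp s(k, z) (Finset.mem_insert_self _ _)
  have h3 : Pr F p (Y D b c) ≤ Pr F p (Y (insert z D) b c) +
      (Pr F p (U (insert z D) b c) + Pr F p (U (insert z D) c b)) := by
    calc Pr F p (Y D b c) ≤ Pr F p (fun S => Y (insert z D) b c S ∨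
          (U (insert z D) b c S ∨ U (insert z D) c b S)) :=
          Pr_mono hpF (fun S _ h => Y_add h)
      _ ≤ _ := by
          refine (Pr_or_le hpF _ _).trans ?_
          exact add_le_add_right (Pr_or_le hpF _ _) _
  rw [h1]
  have h4 := Pr_nonneg hpF (U (insert z D) b c)
  have h5 := Pr_nonneg hpF (U (insert z D) c b)
  nlinarith

/-- (C) -/
theorem q_le {F : Finset (Sym2 V)} {p : Sym2 V → ℝ} (hp : ∀ e ∈ F, 0 ≤ p e ∧ p e ≤ 1)
    (D : Set V) (b c : V) :
    Pr F p (fun S => ¬ PCon S b c) ≤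
      Pr F p (Y D b c) + (Pr F p (U D b c) + Pr F p (U D c b)) + Pr F p (E1 D b c) := by
  calc Pr F p (fun S => ¬ PCon S b c) ≤ Pr F p (fun S => Y D b c S ∨ U D b c S ∨ U D c b S ∨
        E1 D b c S) := Pr_mono hp (fun S _ h => not_con_cases h)
    _ ≤ Pr F p (Y D b c) + (Pr F p (U D b c) + (Pr F p (U D c b) + Pr F p (E1 D b c))) := by
        refine (Pr_or_le hp _ _).trans (add_le_add_right ?_ _)
        refine (Pr_or_le hp _ _).trans (add_le_add_right ?_ _)
        exact Pr_or_le hp _ _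
    _ = _ := by ring

theorem q_closed_le {F : Finset (Sym2 V)} {p : Sym2 V → ℝ}
    {e : Sym2 V} (he : e ∉ F) (hp : ∀ f ∈ insert e F, 0 ≤ p f ∧ p f ≤ 1) (b c : V) :
    Pr (insert e F) p (fun S => ¬ PCon S b c) ≤ Pr F p (fun S => ¬ PCon S b c) := by
  rw [Pr_insert he]
  have hpF : ∀ f ∈ F, 0 ≤ p f ∧ p f ≤ 1 := fun f hf => hp f (Finset.mem_insert_of_mem hf)
  have h1 : Pr F p (fun S => ¬ PCon (insert e S) b c) ≤ Pr F p (fun S => ¬ PCon S b c) :=
    Pr_mono hpF (fun S _ h h' => h (h'.mono (Finset.subset_insert _ _)))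
  have h2 := (hp e (Finset.mem_insert_self _ _)).1
  nlinarith

/-- the main induction -/
theorem main_ind {y₀ : ℝ} (hy₀ : 0 < y₀) (hy₁ : y₀ ≤ 1) (p : Sym2 V → ℝ) (b c : V) :
    ∀ (n : ℕ) (F : Finset (Sym2 V)), F.card = n → ∀ (D : Set V),
      (∀ e ∈ F, 0 ≤ p e ∧ p e ≤ 1) →
      y₀ ≤ Pr F p (fun S => ¬ PCon S b c) →
      y₀ / 2 ≤ Pr F p (Y D b c) →
      y₀ ^ 2 * Pr F p (X D b c) ≤ 8 * (Pr F p (U D b c) + Pr F p (U D c b)) := by
  intro n
  induction n with
  | zero =>
    intro F hF D hp hq hy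
    rw [Finset.card_eq_zero] at hF
    subst hF
    have hb : b ∉ D := by
      intro hb
      have : Pr (∅ : Finset (Sym2 V)) p (Y D b c) = 0 :=
        Pr_eq_zero (fun S _ h => h.1 ⟨b, hb, Relation.ReflTransGen.refl⟩)
      linarith
    have hx : Pr (∅ : Finset (Sym2 V)) p (X D b c) = 0 := by
      refine Pr_eq_zero (fun S hS h => ?_)
      obtain ⟨w, w', _, _, hS', _⟩ := last_exit h.1 hb
      exact absurd (hS hS') (Finset.notMem_empty _)
    rw [hx]
    have h4 := Pr_nonneg hp (U D b c)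
    have h5 := Pr_nonneg hp (U D c b)
    linarith
  | succ n ih =>
    intro F hF D hp hq hy
    have hU := Pr_nonneg hp (U D b c)
    have hV := Pr_nonneg hp (U D c b)
    have hX := Pr_nonneg hp (X D b c)
    have hX1 := Pr_le_one hp (X D b c)
    have hE := Pr_nonneg hp (E1 D b c)
    have hb : b ∉ D := by
      intro hb
      have : Pr F p (Y D b c) = 0 :=
        Pr_eq_zero (fun S _ h => h.1 ⟨b, hb, Relation.ReflTransGen.refl⟩)
      linarith
    have hc : c ∉ D := by
      intro hc
      have : Pr F p (Y D b c) = 0 :=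
        Pr_eq_zero (fun S _ h => h.2.1 ⟨c, hc, Relation.ReflTransGen.refl⟩)
      linarith
    by_cases hM : y₀ ^ 2 ≤ 8 * (Pr F p (U D b c) + Pr F p (U D c b))
    · nlinarith [sq_nonneg y₀]
    · push Not at hM
      -- the gap
      have hB := E1_mul_le hp hb hc
      have hYT : Pr F p (Y D b c) ≤ Pr F p (fun S => ¬ T D S c) :=
        Pr_mono hp (fun S _ h => h.2.1)
      have hEb : Pr F p (E1 D b c) ≤ y₀ / 4 := by
        have h1 : Pr F p (E1 D b c) * (y₀ / 2) ≤ Pr F p (U D b c) :=
          (mul_le_mul_of_nonneg_left (hy.trans hYT) hE).trans hB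
        by_contra hcon
        push Not at hcon
        nlinarith
      have hC := q_le hp D b c
      have hy58 : 5 * y₀ / 8 ≤ Pr F p (Y D b c) := by nlinarith
      by_cases hex : ∃ e ∈ F, ∃ k z : V, e = s(k, z) ∧ k ∈ D ∧ z ∉ D
      · obtain ⟨e, heF, k, z, rfl, hk, hz⟩ := hex
        set F' := F.erase s(k, z) with hF'
        have hFi : F = insert s(k, z) F' := by rw [hF', Finset.insert_erase heF]
        have heF' : s(k, z) ∉ F' := Finset.notMem_erase _ _
        have hcard : F'.card = n := by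
          rw [hF', Finset.card_erase_of_mem heF, hF]; rfl
        have hpF' : ∀ f ∈ F', 0 ≤ p f ∧ p f ≤ 1 := fun f hf => hp f (Finset.mem_of_mem_erase hf)
        have hpi : ∀ f ∈ insert s(k, z) F', 0 ≤ p f ∧ p f ≤ 1 := by rw [← hFi]; exact hp
        have hpe := hp s(k, z) heF
        have hq' : y₀ ≤ Pr F' p (fun S => ¬ PCon S b c) := by
          refine hq.trans ?_
          rw [hFi]
          exact q_closed_le heF' hpi b c
        -- closed child
        have hycl : y₀ / 2 ≤ Pr F' p (Y D b c) := by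
          refine hy.trans ?_
          rw [hFi]
          exact y_closed_le heF' hpi D b c
        have ihc := ih F' hcard D hpF' hq' hycl
        -- open child
        have iho : y₀ ^ 2 * Pr F' p (X (insert z D) b c) ≤
            8 * (Pr F' p (U (insert z D) b c) + Pr F' p (U (insert z D) c b)) := by
          by_cases hM' : y₀ ^ 2 ≤
              8 * (Pr F' p (U (insert z D) b c) + Pr F' p (U (insert z D) c b))
          · have := Pr_le_one hpF' (X (insert z D) b c)
            nlinarith [sq_nonneg y₀]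
          · push Not at hM'
            have hyo := y_open_le hk heF' hpi b c
            rw [← hFi] at hyo
            refine ih F' hcard (insert z D) hpF' hq' ?_
            nlinarith
        -- averaging
        have hXe : Pr F p (X D b c) = p s(k, z) * Pr F' p (X (insert z D) b c) +
            (1 - p s(k, z)) * Pr F' p (X D b c) := by
          rw [hFi, Pr_insert heF', Pr_congr (fun S _ => X_open hk)]
        have hUe : Pr F p (U D b c) = p s(k, z) * Pr F' p (U (insert z D) b c) +
            (1 - p s(k, z)) * Pr F' p (U D b c) := by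
          rw [hFi, Pr_insert heF', Pr_congr (fun S _ => U_open hk)]
        have hVe : Pr F p (U D c b) = p s(k, z) * Pr F' p (U (insert z D) c b) +
            (1 - p s(k, z)) * Pr F' p (U D c b) := by
          rw [hFi, Pr_insert heF', Pr_congr (fun S _ => U_open hk)]
        rw [hXe, hUe, hVe]
        have h1 := mul_le_mul_of_nonneg_left iho hpe.1
        have h2 := mul_le_mul_of_nonneg_left ihc (sub_nonneg.2 hpe.2)
        nlinarith
      · have hx : Pr F p (X D b c) = 0 := by
          refine Pr_eq_zero (fun S hS h => ?_)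
          obtain ⟨w, w', hw, hw', hS', _⟩ := last_exit h.1 hb
          exact hex ⟨_, hS hS', w, w', rfl, hw, hw'⟩
        rw [hx]
        linarith

end Prob

end Pool.Agent.K4H12.Perc
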