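import Mathlib

/-!
Helper for `MP_21d1af_co`: two families of finite sets with all cross intersections of size one.
-/

open Finset

namespace Pool.Agent.K4H12.Pierce

set_option linter.unusedSectionVars false

variable {ι κ α : Type*} [Fintype ι] [Fintype κ] [Fintype α]
  [DecidableEq ι] [DecidableEq κ] [DecidableEq α]

/-- the value of the incidence game -/
theorem game [Nonempty ι] [Nonempty α] (P : ι → Finset α) :
    ∃ (y : ι → ℝ) (x : α → ℝ) (l : ℝ), (∀ r, 0 ≤ y r) ∧ ∑ r, y r = 1 ∧ (∀ e, 0 ≤ x e) ∧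
      ∑ e, x e = 1 ∧ (∀ e, ∑ r, (if e ∈ P r then y r else 0) ≤ l) ∧
      (∀ r, l ≤ ∑ e ∈ P r, x e) := by
  classical
  let f : (ι → ℝ) → (α → ℝ) → ℝ := fun y x => ∑ r, ∑ e, if e ∈ P r then y r * x e else 0
  have hne1 : (stdSimplex ℝ ι).Nonempty := ⟨_, single_mem_stdSimplex ℝ (Classical.arbitrary ι)⟩
  have hne2 : (stdSimplex ℝ α).Nonempty := ⟨_, single_mem_stdSimplex ℝ (Classical.arbitrary α)⟩
  have hc1 : ∀ x : α → ℝ, Continuous fun y => f y x := by
    intro x
    refine continuous_finsetSum _ fun r _ => continuous_finsetSum _ fun e _ => ?_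
    split_ifs
    · exact (continuous_apply r).mul continuous_const
    · exact continuous_const
  have hc2 : ∀ y : ι → ℝ, Continuous fun x => f y x := by
    intro y
    refine continuous_finsetSum _ fun r _ => continuous_finsetSum _ fun e _ => ?_
    split_ifs
    · exact continuous_const.mul (continuous_apply e)
    · exact continuous_const
  have hl1 : ∀ x : α → ℝ, ∀ (y y' : ι → ℝ) (a b : ℝ),
      f (a • y + b • y') x = a * f y x + b * f y' x := by
    intro x y y' a b
    simp only [f, Finset.mul_sum, ← Finset.sum_add_distrib]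
    refine Finset.sum_congr rfl fun r _ => Finset.sum_congr rfl fun e _ => ?_
    split_ifs
    · simp only [Pi.add_apply, Pi.smul_apply, smul_eq_mul]; ring
    · ring
  have hl2 : ∀ y : ι → ℝ, ∀ (x x' : α → ℝ) (a b : ℝ),
      f y (a • x + b • x') = a * f y x + b * f y x' := by
    intro y x x' a b
    simp only [f, Finset.mul_sum, ← Finset.sum_add_distrib]
    refine Finset.sum_congr rfl fun r _ => Finset.sum_congr rfl fun e _ => ?_
    split_ifs
    · simp only [Pi.add_apply, Pi.smul_apply, smul_eq_mul]; ring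
    · ring
  have hconv1 : ∀ x : α → ℝ, ConvexOn ℝ (stdSimplex ℝ ι) fun y => f y x := by
    intro x
    exact ⟨convex_stdSimplex ℝ ι, fun y _ y' _ a b _ _ _ => (hl1 x y y' a b).le⟩
  have hconc2 : ∀ y : ι → ℝ, ConcaveOn ℝ (stdSimplex ℝ α) fun x => f y x := by
    intro y
    exact ⟨convex_stdSimplex ℝ α, fun x _ x' _ a b _ _ _ => (hl2 y x x' a b).ge⟩
  obtain ⟨y, hy, x, hx, hs⟩ := Sion.exists_isSaddlePointOn' (f := f) hne1
    (isCompact_stdSimplex ℝ ι)
    (fun x _ => (hc1 x).continuousOn.lowerSemicontinuousOn)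
    (fun x _ => (hconv1 x).quasiconvexOn)
    (convex_stdSimplex ℝ α) (isCompact_stdSimplex ℝ α)
    (fun y _ => (hc2 y).continuousOn.upperSemicontinuousOn)
    (fun y _ => (hconc2 y).quasiconcaveOn)
    (convex_stdSimplex ℝ ι) hne2
  refine ⟨y, x, f y x, hy.1, hy.2, hx.1, hx.2, fun e => ?_, fun r => ?_⟩
  · have h := hs y hy _ (single_mem_stdSimplex ℝ e)
    refine le_trans (le_of_eq ?_) h
    simp only [f]
    refine Finset.sum_congr rfl fun r _ => ?_
    rw [Finset.sum_eq_single e]
    · simp
    · intro b _ hb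
      simp [hb]
    · intro h; exact absurd (Finset.mem_univ e) h
  · have h := hs _ (single_mem_stdSimplex ℝ r) x hx
    refine le_trans h (le_of_eq ?_)
    simp only [f]
    rw [Finset.sum_eq_single r]
    · rw [← Finset.sum_filter]
      simp
    · intro b _ hb
      refine Finset.sum_eq_zero fun e _ => ?_
      simp [hb]
    · intro h; exact absurd (Finset.mem_univ r) h

/-- cross sums -/
theorem cross_sum {P : ι → Finset α} {Q : κ → Finset α} (hPQ : ∀ r c, (P r ∩ Q c).card = 1)
    {y : ι → ℝ} (hy : ∑ r, y r = 1) (c : κ) :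
    ∑ e ∈ Q c, ∑ r, (if e ∈ P r then y r else 0) = 1 := by
  rw [Finset.sum_comm]
  have : ∀ r, ∑ e ∈ Q c, (if e ∈ P r then y r else 0) = y r := by
    intro r
    rw [← Finset.sum_filter, Finset.sum_const, Finset.filter_mem_eq_inter, Finset.inter_comm, hPQ,
      one_smul]
  rw [Finset.sum_congr rfl (fun r _ => this r), hy]

/-- combination of weights on rows and on columns -/
theorem combine {P : ι → Finset α} {Q : κ → Finset α} (hPQ : ∀ r c, (P r ∩ Q c).card = 1)
    {k : ℕ} (hP : ∀ r, k ≤ (P r).card) (hQ : ∀ c, k ≤ (Q c).card)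
    {y : ι → ℝ} (hy0 : ∀ r, 0 ≤ y r) (hy : ∑ r, y r = 1)
    {z : κ → ℝ} (hz0 : ∀ c, 0 ≤ z c) (hz : ∑ c, z c = 1)
    {s t : ℝ} (hs : 0 ≤ s) (ht : 0 ≤ t) (hst : s + t = 1)
    (hps : ∀ e, ∑ r, (if e ∈ P r then y r else 0) ≤ s)
    (hqt : ∀ e, ∑ c, (if e ∈ Q c then z c else 0) ≤ t) :
    4 * ((k : ℝ) - 1) ≤ Fintype.card α := by
  set p : α → ℝ := fun e => ∑ r, (if e ∈ P r then y r else 0) with hp
  set q : α → ℝ := fun e => ∑ c, (if e ∈ Q c then z c else 0) with hq
  have h1 : ∑ e, p e * q e = 1 := by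
    have : ∀ e, p e * q e = ∑ c, (if e ∈ Q c then z c * p e else 0) := by
      intro e
      simp only [hq]
      rw [Finset.mul_sum]
      refine Finset.sum_congr rfl fun c _ => ?_
      split_ifs
      · ring
      · ring
    rw [Finset.sum_congr rfl (fun e _ => this e), Finset.sum_comm]
    have h2 : ∀ c, ∑ e, (if e ∈ Q c then z c * p e else 0) = z c := by
      intro c
      rw [← Finset.sum_filter, Finset.filter_univ_mem, ← Finset.mul_sum]
      have := cross_sum hPQ hy c
      simp only [hp]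
      rw [this, mul_one]
    rw [Finset.sum_congr rfl (fun c _ => h2 c), hz]
  have h2 : (k : ℝ) ≤ ∑ e, p e := by
    simp only [hp]
    rw [Finset.sum_comm]
    have : ∀ r, ∑ e, (if e ∈ P r then y r else 0) = (P r).card * y r := by
      intro r
      rw [← Finset.sum_filter, Finset.filter_univ_mem, Finset.sum_const, nsmul_eq_mul]
    rw [Finset.sum_congr rfl (fun r _ => this r)]
    calc (k : ℝ) = ∑ r, (k : ℝ) * y r := by rw [← Finset.mul_sum, hy, mul_one]
      _ ≤ _ := Finset.sum_le_sum fun r _ =>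
        mul_le_mul_of_nonneg_right (by exact_mod_cast hP r) (hy0 r)
  have h3 : (k : ℝ) ≤ ∑ e, q e := by
    simp only [hq]
    rw [Finset.sum_comm]
    have : ∀ c, ∑ e, (if e ∈ Q c then z c else 0) = (Q c).card * z c := by
      intro r
      rw [← Finset.sum_filter, Finset.filter_univ_mem, Finset.sum_const, nsmul_eq_mul]
    rw [Finset.sum_congr rfl (fun r _ => this r)]
    calc (k : ℝ) = ∑ r, (k : ℝ) * z r := by rw [← Finset.mul_sum, hz, mul_one]
      _ ≤ _ := Finset.sum_le_sum fun r _ =>
        mul_le_mul_of_nonneg_right (by exact_mod_cast hQ r) (hz0 r)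
  have h4 : 0 ≤ ∑ e, (s - p e) * (t - q e) :=
    Finset.sum_nonneg fun e _ => mul_nonneg (sub_nonneg.2 (hps e)) (sub_nonneg.2 (hqt e))
  have h5 : ∑ e, (s - p e) * (t - q e) =
      (Fintype.card α : ℝ) * (s * t) - s * ∑ e, q e - t * ∑ e, p e + ∑ e, p e * q e := by
    have : ∀ e, (s - p e) * (t - q e) = s * t - s * q e - t * p e + p e * q e := fun e => by ring
    rw [Finset.sum_congr rfl (fun e _ => this e), Finset.sum_add_distrib, Finset.sum_sub_distrib,
      Finset.sum_sub_distrib, Finset.mul_sum, Finset.mul_sum, Finset.sum_const,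
      Finset.card_univ, nsmul_eq_mul]
  rw [h5, h1] at h4
  have h6 : s * (k : ℝ) ≤ s * ∑ e, q e := mul_le_mul_of_nonneg_left h3 hs
  have h7 : t * (k : ℝ) ≤ t * ∑ e, p e := mul_le_mul_of_nonneg_left h2 ht
  have h8 : s * t ≤ 1 / 4 := by nlinarith [sq_nonneg (s - t)]
  have h9 : (Fintype.card α : ℝ) * (s * t) ≤ Fintype.card α * (1 / 4) :=
    mul_le_mul_of_nonneg_left h8 (Nat.cast_nonneg _)
  have h10 : s * (k : ℝ) + t * k = k := by rw [← add_mul, hst, one_mul]
  linarith

/-- if the value of the row game is larger than `1/2`, then there are good column weights -/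
theorem column_weights {P : ι → Finset α} {Q : κ → Finset α}
    (hPQ : ∀ r c, (P r ∩ Q c).card = 1)
    (hP1 : ∀ e, ∃ r, e ∈ P r) (hP0 : ∀ e, ∃ r, e ∉ P r) (hQ1 : ∀ e, ∃ c, e ∈ Q c)
    {y : ι → ℝ} {x : α → ℝ} {l : ℝ} (hy0 : ∀ r, 0 ≤ y r) (hy : ∑ r, y r = 1)
    (hx0 : ∀ e, 0 ≤ x e) (hx : ∑ e, x e = 1)
    (hp : ∀ e, ∑ r, (if e ∈ P r then y r else 0) ≤ l) (hl : ∀ r, l ≤ ∑ e ∈ P r, x e)
    (hl2 : 1 / 2 < l) :
    ∃ z : κ → ℝ, (∀ c, 0 ≤ z c) ∧ ∑ c, z c = 1 ∧
      ∀ e, ∑ c, (if e ∈ Q c then z c else 0) ≤ 1 - l := by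
  set p : α → ℝ := fun e => ∑ r, (if e ∈ P r then y r else 0) with hpdef
  -- complementary slackness
  have hslack : ∀ e, 0 < x e → p e = l := by
    intro e he
    by_contra hne
    have hlt : p e < l := lt_of_le_of_ne (hp e) hne
    have h1 : ∑ e, x e * p e < ∑ e, x e * l := by
      refine Finset.sum_lt_sum (fun e _ => mul_le_mul_of_nonneg_left (hp e) (hx0 e)) ?_
      exact ⟨e, Finset.mem_univ _, mul_lt_mul_of_pos_left hlt he⟩
    rw [← Finset.sum_mul, hx, one_mul] at h1
    have h2 : l ≤ ∑ e, x e * p e := by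
      have : ∑ e, x e * p e = ∑ r, y r * ∑ e ∈ P r, x e := by
        simp only [hpdef, Finset.mul_sum]
        rw [Finset.sum_comm]
        refine Finset.sum_congr rfl fun r _ => ?_
        rw [← Finset.sum_filter_add_sum_filter_not Finset.univ (fun e => e ∈ P r)]
        rw [Finset.filter_univ_mem]
        have h0 : ∑ e ∈ Finset.univ.filter (fun e => ¬ e ∈ P r),
            x e * (if e ∈ P r then y r else 0) = 0 :=
          Finset.sum_eq_zero fun e he => by
            rw [if_neg (Finset.mem_filter.1 he).2, mul_zero]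
        rw [h0, add_zero]
        refine Finset.sum_congr rfl fun e he => ?_
        rw [if_pos he]; ring
      rw [this]
      calc l = ∑ r, y r * l := by rw [← Finset.sum_mul, hy, one_mul]
        _ ≤ _ := Finset.sum_le_sum fun r _ => mul_le_mul_of_nonneg_left (hl r) (hy0 r)
    linarith
  have hpnn : ∀ e, 0 ≤ p e := fun e => Finset.sum_nonneg fun r _ => by
    split_ifs
    · exact hy0 r
    · exact le_rfl
  -- at most one support element in a column
  have huniq : ∀ c e f, 0 < x e → 0 < x f → e ∈ Q c → f ∈ Q c → e = f := by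
    intro c e f he hf hec hfc
    by_contra hne
    have h1 := cross_sum hPQ hy c
    have h2 : p e + p f ≤ ∑ e ∈ Q c, p e := by
      rw [← Finset.sum_pair hne]
      exact Finset.sum_le_sum_of_subset_of_nonneg
        (by intro g hg; rw [Finset.mem_insert, Finset.mem_singleton] at hg
            rcases hg with rfl | rfl <;> assumption) (fun g _ _ => hpnn g)
    have h3 : ∑ e ∈ Q c, p e = 1 := h1
    rw [hslack e he, hslack f hf, h3] at h2
    linarith
  choose col hcol using hQ1
  refine ⟨fun c => ∑ e, if col e = c then x e else 0, fun c => ?_, ?_, ?_⟩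
  · exact Finset.sum_nonneg fun e _ => by
      split_ifs
      · exact hx0 e
      · exact le_rfl
  · rw [Finset.sum_comm]
    simp [hx]
  · intro f
    have h1 : ∑ c, (if f ∈ Q c then ∑ e, (if col e = c then x e else 0) else 0) =
        ∑ e, if f ∈ Q (col e) then x e else 0 := by
      have : ∀ c, (if f ∈ Q c then ∑ e, (if col e = c then x e else 0) else 0) =
          ∑ e, if col e = c then (if f ∈ Q c then x e else 0) else 0 := by
        intro c
        by_cases hf : f ∈ Q c
        · simp [hf]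
        · simp [hf]
      rw [Finset.sum_congr rfl (fun c _ => this c), Finset.sum_comm]
      refine Finset.sum_congr rfl fun e _ => ?_
      rw [Finset.sum_ite_eq]
      simp
    rw [h1]
    by_cases hf : 0 < x f
    · -- support element
      have h2 : ∑ e, (if f ∈ Q (col e) then x e else 0) = x f := by
        rw [Finset.sum_eq_single f]
        · rw [if_pos (hcol f)]
        · intro e _ hef
          by_cases he : 0 < x e
          · rw [if_neg]
            intro hfe
            exact hef (huniq (col e) e f he hf (hcol e) hfe)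
          · have : x e = 0 := le_antisymm (not_lt.1 he) (hx0 e)
            rw [this, ite_self]
        · intro h; exact absurd (Finset.mem_univ f) h
      rw [h2]
      obtain ⟨r, hr⟩ := hP0 f
      have h3 : ∑ e ∈ P r, x e + x f ≤ ∑ e, x e := by
        rw [add_comm, ← Finset.sum_insert hr]
        exact Finset.sum_le_sum_of_subset_of_nonneg (Finset.subset_univ _) (fun g _ _ => hx0 g)
      have := hl r
      linarith
    · obtain ⟨r, hr⟩ := hP1 f
      have h2 : ∑ e, (if f ∈ Q (col e) then x e else 0) + ∑ e ∈ P r, x e ≤ ∑ e, x e := by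
        have h3 : ∑ e ∈ P r, x e = ∑ e, if e ∈ P r then x e else 0 := by
          rw [← Finset.sum_filter, Finset.filter_univ_mem]
        rw [h3, ← Finset.sum_add_distrib]
        refine Finset.sum_le_sum fun e _ => ?_
        by_cases he : 0 < x e
        · by_cases hfe : f ∈ Q (col e)
          · have : e ∉ P r := by
              intro her
              have hc1 := Finset.card_eq_one.1 (hPQ r (col e))
              obtain ⟨g, hg⟩ := hc1
              have e1 : e ∈ P r ∩ Q (col e) := Finset.mem_inter.2 ⟨her, hcol e⟩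
              have e2 : f ∈ P r ∩ Q (col e) := Finset.mem_inter.2 ⟨hr, hfe⟩
              rw [hg, Finset.mem_singleton] at e1 e2
              exact hf (e2 ▸ e1 ▸ he)
            rw [if_pos hfe, if_neg this, add_zero]
          · rw [if_neg hfe, zero_add]
            split_ifs
            · exact le_rfl
            · exact hx0 e
        · have : x e = 0 := le_antisymm (not_lt.1 he) (hx0 e)
          rw [this, ite_self, ite_self, add_zero]
      have := hl r
      linarith

/-- **Main theorem.** Two families with cross intersections of size one, no common element of all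
members of one family, all members of size at least `k`: at least `4 (k - 1)` elements. -/
theorem main [Nonempty ι] [Nonempty κ] {P : ι → Finset α} {Q : κ → Finset α}
    (hPQ : ∀ r c, (P r ∩ Q c).card = 1)
    {k : ℕ} (hP : ∀ r, k ≤ (P r).card) (hQ : ∀ c, k ≤ (Q c).card)
    (hP1 : ∀ e, ∃ r, e ∈ P r) (hP0 : ∀ e, ∃ r, e ∉ P r)
    (hQ1 : ∀ e, ∃ c, e ∈ Q c) (hQ0 : ∀ e, ∃ c, e ∉ Q c) :
    4 * (k - 1) ≤ Fintype.card α := by
  have hne : Nonempty α := by
    obtain ⟨g, _⟩ := Finset.card_eq_one.1
      (hPQ (Classical.arbitrary ι) (Classical.arbitrary κ))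
    exact ⟨g⟩
  have hQP : ∀ c r, (Q c ∩ P r).card = 1 := fun c r => by rw [Finset.inter_comm]; exact hPQ r c
  suffices h : 4 * ((k : ℝ) - 1) ≤ Fintype.card α by
    rcases Nat.eq_zero_or_pos k with rfl | hk
    · simp
    · have h2 : ((4 * (k - 1) : ℕ) : ℝ) ≤ (Fintype.card α : ℝ) := by
        push_cast [Nat.cast_sub hk]
        exact h
      exact_mod_cast h2
  obtain ⟨y, x, l, hy0, hy, hx0, hx, hp, hl⟩ := game P
  obtain ⟨z, w, l', hz0, hz, hw0, hw, hq, hl'⟩ := game Q
  by_cases h1 : 1 / 2 < l
  · obtain ⟨z', hz0', hz', hq'⟩ := column_weights hPQ hP1 hP0 hQ1 hy0 hy hx0 hx hp hl h1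
    have hle : l ≤ 1 := by
      obtain ⟨r⟩ := (inferInstance : Nonempty ι)
      refine (hl r).trans ?_
      rw [← hx]
      exact Finset.sum_le_sum_of_subset_of_nonneg (Finset.subset_univ _) (fun g _ _ => hx0 g)
    exact combine hPQ hP hQ hy0 hy hz0' hz' (by linarith) (by linarith) (by ring) hp hq'
  · by_cases h2 : 1 / 2 < l'
    · obtain ⟨y', hy0', hy', hp'⟩ := column_weights hQP hQ1 hQ0 hP1 hz0 hz hw0 hw hq hl' h2
      have hle : l' ≤ 1 := by
        obtain ⟨r⟩ := (inferInstance : Nonempty κ)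
        refine (hl' r).trans ?_
        rw [← hw]
        exact Finset.sum_le_sum_of_subset_of_nonneg (Finset.subset_univ _) (fun g _ _ => hw0 g)
      exact combine hPQ hP hQ hy0' hy' hz0 hz (by linarith) (by linarith) (by ring) hp' hq
    · exact combine hPQ hP hQ hy0 hy hz0 hz (s := 1 / 2) (t := 1 / 2) (by norm_num) (by norm_num)
        (by norm_num) (fun e => (hp e).trans (not_lt.1 h1)) (fun e => (hq e).trans (not_lt.1 h2))

end Pool.Agent.K4H12.Pierce
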