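import Mathlib
import Pool.Agent.K4H59.TL.Spec

set_option autoImplicit false

open Set

namespace Pool.Agent.K4H59.TL

open Pool.Agent.K4H72.Til (IsPolygon ShareEdge IsTiling Tile Derivable Adj HasLocEig)

theorem mem_sh (t : ℂ) (K : Set ℂ) (x : ℂ) : x ∈ sh t K ↔ x - t ∈ K := by
  constructor
  · rintro ⟨z, hz, rfl⟩
    simpa using hz
  · intro h
    exact ⟨x - t, h, by simp⟩

theorem sh_interior (t : ℂ) (K : Set ℂ) : interior (sh t K) = sh t (interior K) :=
  ((Homeomorph.addLeft t).image_interior K).symm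

theorem sh_closure (t : ℂ) (K : Set ℂ) : closure (sh t K) = sh t (closure K) :=
  ((Homeomorph.addLeft t).image_closure K).symm

theorem sh_polygon {K : Set ℂ} (t : ℂ) (hK : IsPolygon K) : IsPolygon (sh t K) := by
  classical
  obtain ⟨h1, h2, h3, s, h4, h5⟩ := hK
  refine ⟨h1.image _, h2.image (by fun_prop), ?_, s.image fun p => (p.1, p.2 + p.1 t), ?_, ?_⟩
  · rw [sh_interior, sh_closure]
    exact image_mono h3
  · intro p hp
    rw [Finset.mem_image] at hp
    obtain ⟨q, hq, rfl⟩ := hp
    exact h4 q hq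
  · ext x
    have h6 : x ∈ sh t K ↔ ∀ p ∈ s, p.1 (x - t) ≤ p.2 := by
      rw [mem_sh]
      conv_lhs => rw [h5]
      rfl
    rw [h6]
    simp only [mem_setOf_eq, Finset.mem_image]
    constructor
    · rintro h _ ⟨q, hq, rfl⟩
      have := h q hq
      rw [map_sub] at this
      show q.1 x ≤ q.2 + q.1 t
      linarith
    · intro h p hp
      have := h _ ⟨p, hp, rfl⟩
      rw [map_sub]
      have h7 : p.1 x ≤ p.2 + p.1 t := this
      linarith

theorem sh_edge {K e : Set ℂ} (t : ℂ) (h : IsEdge K e) : IsEdge (sh t K) (sh t e) := by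
  obtain ⟨h1, φ, c, h2, h3, h4⟩ := h
  refine ⟨h1.image (add_right_injective t), φ, c + φ t, h2, ?_, ?_⟩
  · intro x hx
    rw [mem_sh] at hx
    have := h3 _ hx
    rw [map_sub] at this
    linarith
  · ext x
    have h5 : x ∈ sh t e ↔ x - t ∈ K ∧ φ (x - t) = c := by
      rw [mem_sh]
      conv_lhs => rw [h4]
      rfl
    rw [h5, mem_setOf_eq, mem_sh, map_sub]
    constructor
    · rintro ⟨h6, h7⟩
      exact ⟨h6, by linarith⟩
    · rintro ⟨h6, h7⟩
      exact ⟨h6, by linarith⟩

theorem sh_share {K L : Set ℂ} (t : ℂ) (h : Share K L) : Share (sh t K) (sh t L) := by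
  obtain ⟨e, h1, h2⟩ := h
  exact ⟨sh t e, sh_edge t h1, sh_edge t h2⟩

theorem sh_sh (s t : ℂ) (K : Set ℂ) : sh s (sh t K) = sh (s + t) K := by
  ext x
  rw [mem_sh, mem_sh, mem_sh, sub_sub]

theorem sInf_sh (f : ℂ → ℝ) (hf : Continuous f) (hadd : ∀ a z, f (a + z) = f a + f z) (A : Set ℂ)
    (hA : IsCompact A) (hne : A.Nonempty) (a : ℂ) : sInf (f '' (sh a A)) = f a + sInf (f '' A) := by
  have h1 : f '' (sh a A) = (fun r => f a + r) '' (f '' A) := by
    unfold sh
    rw [image_image, image_image]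
    exact image_congr fun z _ => hadd a z
  rw [h1]
  have hb : BddBelow (f '' A) := (hA.image hf).bddBelow
  have := (OrderIso.addLeft (f a)).map_csInf' (hne.image f) hb
  exact this.symm

/-- compact nonempty sets have no period -/
theorem sh_inj {K : Set ℂ} (hK : K.Nonempty) (hc : IsCompact K) {s t : ℂ} (h : sh s K = sh t K) : s = t := by
  have h1 := sInf_sh Complex.re Complex.continuous_re (fun _ _ => rfl) K hc hK
  have h2 := sInf_sh Complex.im Complex.continuous_im (fun _ _ => rfl) K hc hK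
  apply Complex.ext
  · have h3 := h1 s
    rw [h, h1 t] at h3
    linarith
  · have h3 := h2 s
    rw [h, h2 t] at h3
    linarith

end Pool.Agent.K4H59.TL
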