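import Mathlib
import Pool.Agent.K4H12.TLM0

set_option autoImplicit false

open Set

namespace Pool.Agent.K4H59.TL

open Pool.Agent.K4H72.Til (IsPolygon ShareEdge IsTiling Tile Derivable Adj HasLocEig)

theorem sh_zero (K : Set ℂ) : sh 0 K = K := by
  ext x
  rw [mem_sh, sub_zero]

theorem sh_neg_sh (t : ℂ) (K : Set ℂ) : sh (-t) (sh t K) = K := by
  rw [sh_sh, neg_add_cancel, sh_zero]

theorem sh_dec {K : Set ℂ} {D : Set (Set ℂ)} {ρ : Set ℂ → ℕ} (t : ℂ) (h : GoodDec K D ρ) :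
    GoodDec (sh t K) (sh t '' D) (fun Q => ρ (sh (-t) Q)) where
  countable := h.countable.image _
  poly := by
    rintro _ ⟨Q, hQ, rfl⟩
    exact sh_polygon t (h.poly Q hQ)
  sub := by
    rintro _ ⟨Q, hQ, rfl⟩
    exact image_mono (h.sub Q hQ)
  cover := by
    intro x hx
    rw [mem_sh] at hx
    obtain ⟨Q, hQ, hx2⟩ := h.cover _ hx
    exact ⟨sh t Q, ⟨Q, hQ, rfl⟩, (mem_sh t Q x).mpr hx2⟩
  disj := by
    rintro _ ⟨Q, hQ, rfl⟩ _ ⟨Q', hQ', rfl⟩ hne
    rw [sh_interior, sh_interior]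
    have h1 := h.disj Q hQ Q' hQ' (fun e => hne (by rw [e]))
    exact (disjoint_image_iff (add_right_injective t)).mpr h1
  inner := by
    rintro _ ⟨Q, hQ, rfl⟩ hr
    rw [sh_neg_sh] at hr
    rw [sh_interior]
    exact image_mono (h.inner Q hQ hr)
  next := by
    rintro _ ⟨Q, hQ, rfl⟩
    obtain ⟨W, hW, h1, h2, h3⟩ := h.next Q hQ
    refine ⟨sh t W, ⟨W, hW, rfl⟩, ?_, sh_share t h2, ?_⟩
    · rw [sh_neg_sh, sh_neg_sh]
      exact h1
    · rintro _ ⟨Q', hQ', rfl⟩ hne hs hr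
      rw [sh_neg_sh, sh_neg_sh] at hr
      have h4 := sh_share (-t) hs
      rw [sh_neg_sh, sh_neg_sh] at h4
      rw [h3 Q' hQ' (fun e => hne (by rw [e])) h4 hr]

/-- representatives of the orbits under translation -/
theorem exists_rep : ∃ (rep : Set ℂ → Set ℂ) (t : Set ℂ → ℂ), (∀ K, K = sh (t K) (rep K)) ∧
    ∀ K s, rep (sh s K) = rep K := by
  classical
  let S : Setoid (Set ℂ) :=
    { r := fun K L => ∃ s, L = sh s K
      iseqv :=
        { refl := fun K => ⟨0, (sh_zero K).symm⟩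
          symm := by
            rintro K L ⟨s, rfl⟩
            exact ⟨-s, (sh_neg_sh s K).symm⟩
          trans := by
            rintro K L M ⟨s, rfl⟩ ⟨s', rfl⟩
            exact ⟨s' + s, sh_sh s' s K⟩ } }
  have h1 : ∀ K : Set ℂ, ∃ s, K = sh s (Quotient.out (Quotient.mk S K)) := by
    intro K
    have h2 : S.r (Quotient.out (Quotient.mk S K)) K := Quotient.mk_out (s := S) K
    exact h2
  choose t ht using h1
  refine ⟨fun K => Quotient.out (Quotient.mk S K), t, ht, fun K s => ?_⟩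
  have h2 : Quotient.mk S (sh s K) = Quotient.mk S K := by
    apply Quotient.sound
    exact ⟨-s, (sh_neg_sh s K).symm⟩
  show Quotient.out (Quotient.mk S (sh s K)) = Quotient.out (Quotient.mk S K)
  rw [h2]

end Pool.Agent.K4H59.TL
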