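import Mathlib
import Pool.Agent.K4H72.Til.Spec

set_option autoImplicit false

open Set

namespace Pool.Agent.K4H72.Til

/-- the reference point -/
noncomputable def ref12 (A : Set ℂ) : ℂ := ⟨sInf (Complex.re '' A), sInf (Complex.im '' A)⟩

theorem sInf_add12 (f : ℂ → ℝ) (hf : Continuous f) (hadd : ∀ a z, f (a + z) = f a + f z) (A : Set ℂ)
    (hA : IsCompact A) (hne : A.Nonempty) (a : ℂ) :
    sInf (f '' ((fun z => a + z) '' A)) = f a + sInf (f '' A) := by
  have h1 : f '' ((fun z => a + z) '' A) = (fun r => f a + r) '' (f '' A) := by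
    rw [image_image, image_image]
    exact image_congr fun z _ => hadd a z
  rw [h1]
  have hb : BddBelow (f '' A) := (hA.image hf).bddBelow
  have := (OrderIso.addLeft (f a)).map_csInf' (hne.image f) hb
  exact this.symm

theorem ref_add12 (A : Set ℂ) (hA : IsCompact A) (hne : A.Nonempty) (a : ℂ) :
    ref12 ((fun z => a + z) '' A) = a + ref12 A := by
  apply Complex.ext
  · exact sInf_add12 Complex.re Complex.continuous_re (fun _ _ => rfl) A hA hne a
  · exact sInf_add12 Complex.im Complex.continuous_im (fun _ _ => rfl) A hA hne a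

theorem ref_dist12 (A : Set ℂ) (hA : IsCompact A) (z : ℂ) (hz : z ∈ A) :
    ‖z - ref12 A‖ ≤ 2 * Metric.diam A := by
  have key : ∀ f : ℂ → ℝ, Continuous f → (∀ a b, |f a - f b| ≤ ‖a - b‖) →
      |f z - sInf (f '' A)| ≤ Metric.diam A := by
    intro f hf hl
    have hc := hA.image hf
    obtain ⟨w, hw, hw2⟩ := hc.sInf_mem (Set.Nonempty.image f ⟨z, hz⟩)
    rw [← hw2]
    refine (hl z w).trans ?_
    rw [← dist_eq_norm]
    exact Metric.dist_le_diam_of_mem hA.isBounded hz hw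
  have h1 := key Complex.re Complex.continuous_re (fun a b => by
    rw [← Complex.sub_re]; exact Complex.abs_re_le_norm _)
  have h2 := key Complex.im Complex.continuous_im (fun a b => by
    rw [← Complex.sub_im]; exact Complex.abs_im_le_norm _)
  have h3 := Complex.norm_le_abs_re_add_abs_im (z - ref12 A)
  have h4 : (z - ref12 A).re = z.re - sInf (Complex.re '' A) := rfl
  have h5 : (z - ref12 A).im = z.im - sInf (Complex.im '' A) := rfl
  rw [h4, h5] at h3
  linarith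

theorem diam_add12 (A : Set ℂ) (a : ℂ) : Metric.diam ((fun z => a + z) '' A) = Metric.diam A := by
  have h : Isometry (fun z : ℂ => a + z) := by
    refine Isometry.of_dist_eq fun x y => ?_
    simp
  exact h.diam_image A

theorem comp_add12 (A : Set ℂ) (hA : IsCompact A) (a : ℂ) : IsCompact ((fun z => a + z) '' A) :=
  hA.image (by fun_prop)

theorem points {C : Type} (T : Set (Tile C)) (hT : IsTiling T) (hF : FLC T) :
    ∃ (P : Set ℂ) (D : ℝ), 0 < D ∧ (∀ x : ℂ, ∃ p ∈ P, ‖x - p‖ ≤ D / 4) ∧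
      {d : ℂ | ∃ p ∈ P, ∃ p' ∈ P, d = p - p' ∧ ‖d‖ ≤ 8 * D}.Finite ∧
      ∀ R : ℝ, ∃ R' : ℝ, 0 < R' ∧ ∀ x y : ℂ,
        patch T (-x) (Metric.ball 0 R') = patch T (-y) (Metric.ball 0 R') →
          ∀ p : ℂ, ‖p‖ < R → (x + p ∈ P ↔ y + p ∈ P) := by
  have hcomp : ∀ t ∈ T, IsCompact t.1 := fun t ht => (hT.polygon t ht).2.1
  have hne : ∀ t ∈ T, t.1.Nonempty := fun t ht => (hT.polygon t ht).1
  -- the diameters
  obtain ⟨K, hK0, hK⟩ : ∃ K : ℝ, 0 ≤ K ∧ ∀ t ∈ T, Metric.diam t.1 ≤ K := by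
    obtain ⟨F, hFf, hPf, hFc⟩ := hF 1 one_pos
    have hfin : (⋃₀ F).Finite := hFf.sUnion hPf
    obtain ⟨K, hK⟩ := (hfin.image fun t : Tile C => Metric.diam t.1).bddAbove
    refine ⟨max K 0, le_max_right _ _, fun t ht => ?_⟩
    obtain ⟨z, hz⟩ := hne t ht
    obtain ⟨Q, hQ, a, hQa⟩ := hFc z
    have h1 : shift (-z) t ∈ patch T (-z) (Metric.ball 0 1) := by
      refine ⟨⟨t, ht, rfl⟩, 0, ⟨z, hz, by simp⟩, by simp⟩
    rw [hQa] at h1
    obtain ⟨q, hq, hqt⟩ := h1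
    have h2 : Metric.diam q.1 = Metric.diam t.1 := by
      have h3 := congrArg Prod.fst hqt
      have h4 : (fun w => a + w) '' q.1 = (fun w => -z + w) '' t.1 := h3
      rw [← diam_add12 q.1 a, h4, diam_add12]
    rw [← h2]
    exact (hK ⟨q, ⟨Q, hQ, hq⟩, rfl⟩).trans (le_max_left _ _)
  have hdist : ∀ t ∈ T, ∀ z ∈ t.1, ‖z - ref12 t.1‖ ≤ 2 * K := by
    intro t ht z hz
    exact (ref_dist12 t.1 (hcomp t ht) z hz).trans (by linarith [hK t ht])
  -- membership in patches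
  have hpatch : ∀ t ∈ T, ∀ (x : ℂ) (R : ℝ), ‖ref12 t.1 - x‖ + 2 * K < R →
      shift (-x) t ∈ patch T (-x) (Metric.ball 0 R) := by
    intro t ht x R h
    obtain ⟨z, hz⟩ := hne t ht
    refine ⟨⟨t, ht, rfl⟩, -x + z, ⟨z, hz, rfl⟩, ?_⟩
    rw [Metric.mem_ball, dist_zero_right]
    have h1 := hdist t ht z hz
    have h2 : -x + z = (z - ref12 t.1) + (ref12 t.1 - x) := by ring
    rw [h2]
    refine (norm_add_le _ _).trans_lt ?_
    linarith
  refine ⟨{p | ∃ t ∈ T, p = ref12 t.1}, 8 * K + 4, by linarith, fun x => ?_, ?_, fun R => ?_⟩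
  · obtain ⟨t, ht, hx⟩ := hT.cover x
    exact ⟨_, ⟨t, ht, rfl⟩, (hdist t ht x hx).trans (by linarith)⟩
  · obtain ⟨R1, hR1⟩ : ∃ R1 : ℝ, R1 = 8 * (8 * K + 4) + 2 * K + 1 := ⟨_, rfl⟩
    have hR10 : 0 < R1 := by rw [hR1]; linarith
    obtain ⟨F, hFf, hPf, hFc⟩ := hF R1 hR10
    have hfin : (⋃₀ F).Finite := hFf.sUnion hPf
    refine ((hfin.prod hfin).image fun q : Tile C × Tile C => ref12 q.1.1 - ref12 q.2.1).subset ?_
    rintro d ⟨_, ⟨t, ht, rfl⟩, _, ⟨t', ht', rfl⟩, rfl, hd⟩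
    obtain ⟨Q, hQ, a, hQa⟩ := hFc (ref12 t'.1)
    have h1 := hpatch t ht (ref12 t'.1) R1 (by rw [hR1]; linarith)
    have h2 := hpatch t' ht' (ref12 t'.1) R1 (by rw [hR1, sub_self, norm_zero]; linarith)
    rw [hQa] at h1 h2
    obtain ⟨q, hq, hqt⟩ := h1
    obtain ⟨q', hq', hqt'⟩ := h2
    have hback : ∀ (s : Tile C) (r : Tile C), r ∈ T → shift a s = shift (-(ref12 t'.1)) r →
        ref12 s.1 = -a + (-(ref12 t'.1) + ref12 r.1) := by
      intro s r hr h
      have h4 : (fun w => a + w) '' s.1 = (fun w => -(ref12 t'.1) + w) '' r.1 := congrArg Prod.fst h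
      have h5 : s.1 = (fun w => -a + w) '' ((fun w => -(ref12 t'.1) + w) '' r.1) := by
        rw [← h4, image_image]
        simp
      rw [h5, ref_add12 _ (comp_add12 _ (hcomp r hr) _) ((hne r hr).image _), ref_add12 _ (hcomp r hr) (hne r hr)]
    refine ⟨(q, q'), ⟨⟨Q, hQ, hq⟩, ⟨Q, hQ, hq'⟩⟩, ?_⟩
    show ref12 q.1 - ref12 q'.1 = ref12 t.1 - ref12 t'.1
    rw [hback q t ht hqt, hback q' t' ht' hqt']
    ring
  · obtain ⟨R', hR'⟩ : ∃ R' : ℝ, R' = |R| + 2 * K + 1 := ⟨_, rfl⟩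
    have hR'0 : 0 < R' := by rw [hR']; positivity
    have main : ∀ x y : ℂ, patch T (-x) (Metric.ball 0 R') = patch T (-y) (Metric.ball 0 R') →
        ∀ p : ℂ, ‖p‖ < R → (∃ t ∈ T, x + p = ref12 t.1) → ∃ t ∈ T, y + p = ref12 t.1 := by
      rintro x y h p hp ⟨t, ht, hxt⟩
      have h1 := hpatch t ht x R' (by
        rw [← hxt, hR']
        have : x + p - x = p := by ring
        rw [this]
        linarith [le_abs_self R])
      rw [h] at h1
      obtain ⟨⟨t', ht', h2⟩, -⟩ := h1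
      refine ⟨t', ht', ?_⟩
      have h3 : (fun w => -y + w) '' t'.1 = (fun w => -x + w) '' t.1 := congrArg Prod.fst h2
      have h4 := congrArg ref12 h3
      rw [ref_add12 _ (hcomp t' ht') (hne t' ht'), ref_add12 _ (hcomp t ht) (hne t ht), ← hxt] at h4
      have h5 : ref12 t'.1 = y + (-x + (x + p)) := by rw [← h4]; ring
      rw [h5]
      ring
    refine ⟨R', hR'0, fun x y h p hp => ⟨?_, ?_⟩⟩
    · exact main x y h p hp
    · exact main y x h.symm p hp

end Pool.Agent.K4H72.Til
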